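import Pool.Agent.TH498.HF.TM3
import Pool.Agent.TH498.KB.Blocks

/-!
# Pairs of any height where the radical of a form is small: blocks
-/

set_option autoImplicit false

namespace Pool.Agent.TH498.HF

open Finset Polynomial Pool.Agent.W4.CF Pool.Agent.W4.VC Pool.Agent.TH498.KB

/-- **Blocks.** Let `F k`, `k ∈ ι`, be the factors of a form without multiple factors, and let
`B b`, `b ∈ β`, be sets of factors of total degree at least three such that every factor is in at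
most `c` of them. Then there are `O(R ^ (c / |β|) (1 + log R) ^ k)` coprime pairs, of any height,
where the radical of the form is at most `R`. -/
theorem blocksF {ι β : Type} [Fintype ι] [DecidableEq ι] [Fintype β] [DecidableEq β] [Nonempty β]
    (F : ι → ℤ[X]) (d : ι → ℕ) (hd : ∀ k, (F k).natDegree ≤ d k)
    (hsq : Sqf (∏ k, F k) (∑ k, d k)) (B : β → Finset ι) (hB : ∀ b, 3 ≤ ∑ k ∈ B b, d k)
    (c : ℕ) (hc : ∀ k, (univ.filter (fun b => k ∈ B b)).card ≤ c) (m : ℕ) (hm : 1 ≤ m) :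
    ∃ (C : ℝ) (e : ℕ), 0 < C ∧ ∀ R : ℝ, 1 ≤ R → ∀ s : Finset (ℤ × ℤ),
      (∀ p ∈ s, IsCoprime p.1 p.2 ∧
        hom (∏ k, F k) (∑ k, d k) p.1 p.2 ≠ 0 ∧
        (radp m (hom (∏ k, F k) (∑ k, d k) p.1 p.2).natAbs : ℝ) ≤ R) →
      (s.card : ℝ) ≤ C * R ^ ((c : ℝ) / Fintype.card β) * (1 + Real.log R) ^ e := by
  classical
  -- every subset gives a form without multiple factors
  have hsub : ∀ J : Finset ι, Sqf (∏ k ∈ J, F k) (∑ k ∈ J, d k) ∧ ∃ M : ℕ, 1 ≤ M ∧
      ∀ a b : ℤ, IsCoprime a b → ∀ p : ℕ, p.Prime →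
        (p : ℤ) ∣ ∏ k ∈ J, hom (F k) (d k) a b → (p : ℤ) ∣ ∏ k ∈ Jᶜ, hom (F k) (d k) a b →
        p ∣ M := by
    intro J
    have h1 : (∏ k ∈ J, F k) * (∏ k ∈ Jᶜ, F k) = ∏ k, F k := prod_mul_prod_compl J F
    have h2 : (∑ k ∈ J, d k) + (∑ k ∈ Jᶜ, d k) = ∑ k, d k := sum_add_sum_compl J d
    have hp := fun (K : Finset ι) (a b : ℤ) => hom_prod K F d (fun i _ => hd i) a b
    have h3 := Pool.Agent.W290.VC.t_RES (∏ k ∈ J, F k) (∏ k ∈ Jᶜ, F k) (∑ k ∈ J, d k)
      (∑ k ∈ Jᶜ, d k) (hp J 0 0).1 (hp Jᶜ 0 0).1 (by rw [h1, h2]; exact hsq)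
    obtain ⟨a1, -, M, hM, h4⟩ := h3
    refine ⟨a1, M, hM, ?_⟩
    intro a b hab p hpp x1 x2
    rw [← (hp J a b).2] at x1
    rw [← (hp Jᶜ a b).2] at x2
    exact h4 a b hab p hpp x1 x2
  choose hS M hM hMp using hsub
  set M0 : ℕ := ∏ k : ι, M {k} with hM0
  have hM01 : 1 ≤ M0 := by
    rw [hM0]
    exact Nat.one_le_iff_ne_zero.mpr (prod_ne_zero_iff.mpr fun k _ => by
      have := hM {k}
      omega)
  have hmM : 1 ≤ m * M0 := Nat.one_le_iff_ne_zero.mpr (by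
    have : m ≠ 0 := by omega
    have : M0 ≠ 0 := by omega
    positivity)
  have hsm := fun b : β => TMsum (∏ k ∈ B b, F k) (∑ k ∈ B b, d k) (hS (B b)) (hB b) (m * M0) hmM
  choose D e hD hDs using hsm
  have hcard0 : 0 < Fintype.card β := Fintype.card_pos
  have hcr : 0 ≤ (c : ℝ) / Fintype.card β := by positivity
  set e0 : ℕ := ∑ b, e b with he0
  set G : ℝ := 1 + (c : ℝ) / Fintype.card β with hG
  have hG1 : 1 ≤ G := by linarith
  refine ⟨(∑ b, D b) * G ^ e0, e0, ?_, ?_⟩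
  · have : 0 < ∑ b, D b := sum_pos (fun b _ => hD b) univ_nonempty
    positivity
  intro R hR s hs
  set T : ℝ := R ^ ((c : ℝ) / Fintype.card β) with hT
  have hR0 : 0 < R := by linarith
  have hT0 : 0 < T := by rw [hT]; positivity
  have hT1 : 1 ≤ T := Real.one_le_rpow hR hcr
  have hval : ∀ p ∈ s, (∀ k, hom (F k) (d k) p.1 p.2 ≠ 0) ∧
      ((∏ k, radp (m * M0) (hom (F k) (d k) p.1 p.2).natAbs : ℕ) : ℝ) ≤ R := by
    intro p hp
    obtain ⟨hcop, b3, b4⟩ := hs p hp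
    have hh := (hom_prod univ F d (fun i _ => hd i) p.1 p.2).2
    rw [hh] at b3 b4
    have hne : ∀ k, hom (F k) (d k) p.1 p.2 ≠ 0 := fun k => prod_ne_zero_iff.mp b3 k (mem_univ k)
    refine ⟨hne, ?_⟩
    refine le_trans ?_ b4
    have e1 : (∏ k, hom (F k) (d k) p.1 p.2).natAbs = ∏ k, (hom (F k) (d k) p.1 p.2).natAbs :=
      map_prod Int.natAbsHom _ _
    rw [e1]
    have e2 : ∏ k, radp (m * M0) (hom (F k) (d k) p.1 p.2).natAbs ≤
        radp (m * M0) (∏ k, (hom (F k) (d k) p.1 p.2).natAbs) := by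
      apply prod_radp_le
      · intro k
        exact Int.natAbs_ne_zero.mpr (hne k)
      · intro k k' hkk' q hq q1 q2
        have f1 : (q : ℤ) ∣ ∏ l ∈ ({k} : Finset ι), hom (F l) (d l) p.1 p.2 := by
          rw [prod_singleton]
          exact Int.natCast_dvd.mpr q1
        have f2 : (q : ℤ) ∣ ∏ l ∈ ({k} : Finset ι)ᶜ, hom (F l) (d l) p.1 p.2 := by
          refine (Int.natCast_dvd.mpr q2).trans (dvd_prod_of_mem _ ?_)
          rw [mem_compl, mem_singleton]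
          exact Ne.symm hkk'
        have f3 := hMp {k} p.1 p.2 hcop q hq f1 f2
        exact (f3.trans (dvd_prod_of_mem (fun k => M {k}) (mem_univ k))).mul_left m
    exact_mod_cast e2.trans (radp_mono_left m M0 _)
  have hex : ∀ p ∈ s, ∃ b : β,
      (radp (m * M0) (hom (∏ k ∈ B b, F k) (∑ k ∈ B b, d k) p.1 p.2).natAbs : ℝ) ≤ T := by
    intro p hp
    obtain ⟨hne, hle⟩ := hval p hp
    by_contra hcon
    push Not at hcon
    have k1 : ∀ b : β, T < ((∏ k ∈ B b, radp (m * M0) (hom (F k) (d k) p.1 p.2).natAbs : ℕ) : ℝ) := by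
      intro b
      refine lt_of_lt_of_le (hcon b) ?_
      rw [(hom_prod (B b) F d (fun i _ => hd i) p.1 p.2).2]
      have e1 : (∏ k ∈ B b, hom (F k) (d k) p.1 p.2).natAbs =
          ∏ k ∈ B b, (hom (F k) (d k) p.1 p.2).natAbs := map_prod Int.natAbsHom _ _
      rw [e1]
      exact_mod_cast radp_prod_le (m * M0) (B b) _ (fun k _ => Int.natAbs_ne_zero.mpr (hne k))
    have k2 : ∏ _b : β, T <
        ∏ b : β, ((∏ k ∈ B b, radp (m * M0) (hom (F k) (d k) p.1 p.2).natAbs : ℕ) : ℝ) :=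
      prod_lt_prod_of_nonempty (fun _ _ => hT0) (fun b _ => k1 b) univ_nonempty
    have k3 : ∏ _b : β, T = R ^ c := by
      rw [prod_const, card_univ, hT, ← Real.rpow_natCast, ← Real.rpow_mul hR0.le,
        div_mul_cancel₀ _ (by exact_mod_cast hcard0.ne'), Real.rpow_natCast]
    have k4 : (∏ b : β, ∏ k ∈ B b, radp (m * M0) (hom (F k) (d k) p.1 p.2).natAbs) ≤
        (∏ k, radp (m * M0) (hom (F k) (d k) p.1 p.2).natAbs) ^ c := by
      have e1 : ∀ b : β, ∏ k ∈ B b, radp (m * M0) (hom (F k) (d k) p.1 p.2).natAbs =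
          ∏ k, if k ∈ B b then radp (m * M0) (hom (F k) (d k) p.1 p.2).natAbs else 1 := by
        intro b
        rw [prod_ite_mem, univ_inter]
      rw [prod_congr rfl (fun b _ => e1 b), prod_comm, ← prod_pow]
      apply prod_le_prod'
      intro k _
      rw [prod_ite, prod_const_one, mul_one, prod_const]
      exact Nat.pow_le_pow_right (radp_pos _ _) (hc k)
    have k5 : ((∏ b : β, ∏ k ∈ B b, radp (m * M0) (hom (F k) (d k) p.1 p.2).natAbs : ℕ) : ℝ) ≤
        R ^ c := by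
      calc _ ≤ (((∏ k, radp (m * M0) (hom (F k) (d k) p.1 p.2).natAbs) ^ c : ℕ) : ℝ) := by
            exact_mod_cast k4
        _ = ((∏ k, radp (m * M0) (hom (F k) (d k) p.1 p.2).natAbs : ℕ) : ℝ) ^ c := by push_cast; rfl
        _ ≤ R ^ c := by gcongr
    rw [k3] at k2
    have k6 : (∏ b : β, ((∏ k ∈ B b, radp (m * M0) (hom (F k) (d k) p.1 p.2).natAbs : ℕ) : ℝ)) =
        ((∏ b : β, ∏ k ∈ B b, radp (m * M0) (hom (F k) (d k) p.1 p.2).natAbs : ℕ) : ℝ) := by
      push_cast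
      rfl
    rw [k6] at k2
    linarith
  have hcover : s ⊆ univ.biUnion (fun b : β => s.filter (fun p =>
      (radp (m * M0) (hom (∏ k ∈ B b, F k) (∑ k ∈ B b, d k) p.1 p.2).natAbs : ℝ) ≤ T)) := by
    intro p hp
    obtain ⟨b, hb⟩ := hex p hp
    rw [mem_biUnion]
    exact ⟨b, mem_univ b, mem_filter.mpr ⟨hp, hb⟩⟩
  have hlogR : 0 ≤ Real.log R := Real.log_nonneg hR
  have hlT : 1 + Real.log T ≤ G * (1 + Real.log R) := by
    rw [hT, Real.log_rpow hR0, hG]
    nlinarith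
  have hlT1 : 1 ≤ 1 + Real.log T := by
    have := Real.log_nonneg hT1
    linarith
  have hb : ∀ b : β, ((s.filter (fun p =>
      (radp (m * M0) (hom (∏ k ∈ B b, F k) (∑ k ∈ B b, d k) p.1 p.2).natAbs : ℝ) ≤ T)).card : ℝ) ≤
      D b * T * (G * (1 + Real.log R)) ^ e0 := by
    intro b
    have h1 := hDs b T hT1 (s.filter (fun p =>
      (radp (m * M0) (hom (∏ k ∈ B b, F k) (∑ k ∈ B b, d k) p.1 p.2).natAbs : ℝ) ≤ T)) (by
      intro p hp
      rw [mem_filter] at hp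
      obtain ⟨hcop, b3, b4⟩ := hs p hp.1
      refine ⟨hcop, ?_, hp.2⟩
      rw [(hom_prod (B b) F d (fun i _ => hd i) p.1 p.2).2]
      exact prod_ne_zero_iff.mpr fun k _ => (hval p hp.1).1 k)
    refine h1.trans ?_
    have h2 : (1 + Real.log T) ^ e b ≤ (G * (1 + Real.log R)) ^ e0 := by
      calc (1 + Real.log T) ^ e b ≤ (1 + Real.log T) ^ e0 :=
            pow_le_pow_right₀ hlT1 (single_le_sum (f := e) (fun _ _ => Nat.zero_le _) (mem_univ b))
        _ ≤ _ := pow_le_pow_left₀ (by linarith) hlT _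
    exact mul_le_mul_of_nonneg_left h2 (mul_nonneg (hD b).le hT0.le)
  calc (s.card : ℝ) ≤ ((univ.biUnion (fun b : β => s.filter (fun p =>
      (radp (m * M0) (hom (∏ k ∈ B b, F k) (∑ k ∈ B b, d k) p.1 p.2).natAbs : ℝ) ≤ T))).card : ℝ) := by
        exact_mod_cast card_le_card hcover
    _ ≤ ∑ b : β, ((s.filter (fun p =>
      (radp (m * M0) (hom (∏ k ∈ B b, F k) (∑ k ∈ B b, d k) p.1 p.2).natAbs : ℝ) ≤ T)).card : ℝ) := by
        exact_mod_cast card_biUnion_le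
    _ ≤ ∑ b : β, D b * T * (G * (1 + Real.log R)) ^ e0 := sum_le_sum fun b _ => hb b
    _ = (∑ b, D b) * G ^ e0 * T * (1 + Real.log R) ^ e0 := by
        rw [← sum_mul, ← sum_mul, mul_pow]
        ring

end Pool.Agent.TH498.HF
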