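import Pool.Agent.TH498.HF.CF
import Pool.Agent.TH498.KB.Kub

/-!
# Families `y² + a₁(t) x y + a₃(t) y = x³ + a₂(t) x²`, block by block
-/

set_option autoImplicit false

namespace Pool.Agent.TH498.HF

open Finset Polynomial Pool.Agent.TH498.KB

theorem famB_mk (a1 a2 a3 F G Fd U V : ℤ[X]) (k w L m N : ℕ)
    (hfam : Fam (27 * c4p a1 a2 a3) (54 * c6p a1 a2 a3) k w L)
    (f : Fin m → ℤ[X]) (n : Fin m → ℕ) (hn : ∀ i, (f i).natDegree ≤ n i)
    (hF : ∏ i, f i = F) (hdeg : ∑ i, n i ≤ F.natDegree + 1)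
    (hFd : derivative F = Fd) (hN : N ≠ 0) (hsep : U * F + V * Fd = (N : ℤ[X]))
    (hFG : F * G = Dp a1 a2 a3) (hG : G.natDegree + ∑ i, n i ≤ 12 * k) :
    FamB (27 * c4p a1 a2 a3) (54 * c6p a1 a2 a3) k m f n := by
  obtain ⟨hk, hA, hB, hlead, hcop, -, -, -⟩ := hfam
  refine ⟨hk, hA, hB, hlead, hcop, hn, ?_, ?_, 136048896 * G, ?_, ?_⟩
  · rw [hF]
    have h4 := cert F Fd U V N hN hsep
    rw [← hFd, ← derivative_map] at h4
    exact Separable.squarefree h4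
  · rw [hF]
    exact hdeg
  · rw [hF, disc_id, ← hFG]
    ring
  · have : ((136048896 : ℤ[X]) * G).natDegree = G.natDegree := by
      have h := natDegree_C_mul (a := (136048896 : ℤ)) (p := G) (by norm_num)
      exact h
    rw [this]
    exact hG

/-- the discriminant divides a power of the form `∏ f_i`, up to a constant -/
def Rev (A B : ℤ[X]) (k m : ℕ) (f : Fin m → ℤ[X]) (n : Fin m → ℕ) : Prop :=
  ∃ (j N : ℕ) (G : ℤ[X]), N ≠ 0 ∧ (4 * A ^ 3 - 27 * B ^ 2) * G = (N : ℤ[X]) * (∏ i, f i) ^ j ∧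
    G.natDegree + 12 * k ≤ j * ∑ i, n i

theorem rev_mk (a1 a2 a3 : ℤ[X]) (k m j c : ℕ) (f : Fin m → ℤ[X]) (n : Fin m → ℕ) (G : ℤ[X])
    (hc : c ≠ 0) (h : Dp a1 a2 a3 * G = (c : ℤ[X]) * (∏ i, f i) ^ j)
    (hG : G.natDegree + 12 * k ≤ j * ∑ i, n i) :
    Rev (27 * c4p a1 a2 a3) (54 * c6p a1 a2 a3) k m f n := by
  refine ⟨j, 136048896 * c, G, mul_ne_zero (by norm_num) hc, ?_, hG⟩
  rw [disc_id, mul_assoc, h]
  push_cast
  ring

end Pool.Agent.TH498.HF
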