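import Pool.Agent.TH498.HF.FB
import Pool.Agent.TH498.KB.Kub1

/-!
# Kubert's families, block by block
-/

set_option autoImplicit false
set_option maxHeartbeats 4000000

namespace Pool.Agent.TH498.HF

open Finset Polynomial Pool.Agent.TH498.KB

noncomputable def f_z5 : Fin 3 → ℤ[X] := ![X, 1, X ^ 2 - 11 * X - 1]
def n_z5 : Fin 3 → ℕ := ![1, 1, 2]

theorem prod_z5 : ∏ i, f_z5 i = X * (X ^ 2 - 11 * X - 1) := by
  simp [f_z5, Fin.prod_univ_succ] <;> ring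

theorem famB_z5 : FamB (27 * c4p a1_z5 a2_z5 a3_z5) (54 * c6p a1_z5 a2_z5 a3_z5)
    1 3 f_z5 n_z5 := by
  refine famB_mk a1_z5 a2_z5 a3_z5 (X ^ 3 - 11 * X ^ 2 - X)
    (X ^ 4) (3 * X ^ 2 - 22 * X - 1)
    (-744 * X + 5489)
    (248 * X ^ 2 - 2739 * X - 125) 1 1 2 3 125 fam_z5 f_z5 n_z5
    ?_ ?_ ?_ ?_ (by norm_num) ?_ ?_ ?_
  · intro i
    fin_cases i <;> simp [f_z5, n_z5] <;> compute_degree <;> norm_num
  · rw [prod_z5]; ring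
  · have : (X ^ 3 - 11 * X ^ 2 - X : ℤ[X]).natDegree = 3 := by compute_degree!
    rw [this]
    decide
  · simp <;> ring
  · push_cast; ring
  · rw [D_z5]; ring
  · have : (X ^ 4 : ℤ[X]).natDegree ≤ 8 := by compute_degree <;> norm_num
    refine (Nat.add_le_add_right this _).trans ?_
    decide

theorem rev_z5 : Rev (27 * c4p a1_z5 a2_z5 a3_z5) (54 * c6p a1_z5 a2_z5 a3_z5)
    1 3 f_z5 n_z5 := by
  have h : ∀ x0 x1 : ℤ[X], (x0 ^ 5 * x1) * (x1 ^ 4) =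
      1 * (x0 * x1) ^ 5 := by intros; ring
  refine rev_mk a1_z5 a2_z5 a3_z5 1 3 5 1 f_z5 n_z5 ((X ^ 2 - 11 * X - 1) ^ 4) (by norm_num) ?_ ?_
  · rw [D_z5, prod_z5]
    push_cast
    exact h X (X ^ 2 - 11 * X - 1)
  · have : ((X ^ 2 - 11 * X - 1) ^ 4 : ℤ[X]).natDegree ≤ 8 := by compute_degree <;> norm_num
    refine (Nat.add_le_add_right this _).trans ?_
    decide

noncomputable def f_z6 : Fin 4 → ℤ[X] := ![X, X + 1, 9 * X + 1, 1]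
def n_z6 : Fin 4 → ℕ := ![1, 1, 1, 1]

theorem prod_z6 : ∏ i, f_z6 i = X * (X + 1) * (9 * X + 1) := by
  simp [f_z6, Fin.prod_univ_succ] <;> ring

theorem famB_z6 : FamB (27 * c4p a1_z6 a2_z6 a3_z6) (54 * c6p a1_z6 a2_z6 a3_z6)
    1 4 f_z6 n_z6 := by
  refine famB_mk a1_z6 a2_z6 a3_z6 (9 * X ^ 3 + 10 * X ^ 2 + X)
    (X ^ 5 * (X + 1) ^ 2) (27 * X ^ 2 + 20 * X + 1)
    (-1971 * X - 1325)
    (657 * X ^ 2 + 685 * X + 32) 1 0 4 4 32 fam_z6 f_z6 n_z6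
    ?_ ?_ ?_ ?_ (by norm_num) ?_ ?_ ?_
  · intro i
    fin_cases i <;> simp [f_z6, n_z6] <;> compute_degree <;> norm_num
  · rw [prod_z6]; ring
  · have : (9 * X ^ 3 + 10 * X ^ 2 + X : ℤ[X]).natDegree = 3 := by compute_degree!
    rw [this]
    decide
  · simp <;> ring
  · push_cast; ring
  · rw [D_z6]; ring
  · have : (X ^ 5 * (X + 1) ^ 2 : ℤ[X]).natDegree ≤ 8 := by compute_degree <;> norm_num
    refine (Nat.add_le_add_right this _).trans ?_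
    decide

theorem rev_z6 : Rev (27 * c4p a1_z6 a2_z6 a3_z6) (54 * c6p a1_z6 a2_z6 a3_z6)
    1 4 f_z6 n_z6 := by
  have h : ∀ x0 x1 x2 : ℤ[X], (x0 ^ 6 * x1 ^ 3 * x2) * (x1 ^ 3 * x2 ^ 5) =
      1 * (x0 * x1 * x2) ^ 6 := by intros; ring
  refine rev_mk a1_z6 a2_z6 a3_z6 1 4 6 1 f_z6 n_z6 ((X + 1) ^ 3 * (9 * X + 1) ^ 5) (by norm_num) ?_ ?_
  · rw [D_z6, prod_z6]
    push_cast
    exact h X (X + 1) (9 * X + 1)
  · have : ((X + 1) ^ 3 * (9 * X + 1) ^ 5 : ℤ[X]).natDegree ≤ 8 := by compute_degree <;> norm_num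
    refine (Nat.add_le_add_right this _).trans ?_
    decide

noncomputable def f_z7 : Fin 4 → ℤ[X] := ![X, X - 1, 1, X ^ 3 - 8 * X ^ 2 + 5 * X + 1]
def n_z7 : Fin 4 → ℕ := ![1, 1, 1, 3]

theorem prod_z7 : ∏ i, f_z7 i = X * (X - 1) * (X ^ 3 - 8 * X ^ 2 + 5 * X + 1) := by
  simp [f_z7, Fin.prod_univ_succ] <;> ring

theorem famB_z7 : FamB (27 * c4p a1_z7 a2_z7 a3_z7) (54 * c6p a1_z7 a2_z7 a3_z7)
    2 4 f_z7 n_z7 := by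
  refine famB_mk a1_z7 a2_z7 a3_z7 (X ^ 5 - 9 * X ^ 4 + 13 * X ^ 3 - 4 * X ^ 2 - X)
    (X ^ 6 * (X - 1) ^ 6) (5 * X ^ 4 - 36 * X ^ 3 + 39 * X ^ 2 - 8 * X - 1)
    (-1020 * X ^ 3 + 6769 * X ^ 2 - 4366 * X + 602)
    (204 * X ^ 4 - 1721 * X ^ 3 + 1727 * X ^ 2 - 210 * X - 49) 2 1 3 4 49 fam_z7 f_z7 n_z7
    ?_ ?_ ?_ ?_ (by norm_num) ?_ ?_ ?_
  · intro i
    fin_cases i <;> simp [f_z7, n_z7] <;> compute_degree <;> norm_num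
  · rw [prod_z7]; ring
  · have : (X ^ 5 - 9 * X ^ 4 + 13 * X ^ 3 - 4 * X ^ 2 - X : ℤ[X]).natDegree = 5 := by compute_degree!
    rw [this]
    decide
  · simp <;> ring
  · push_cast; ring
  · rw [D_z7]; ring
  · have : (X ^ 6 * (X - 1) ^ 6 : ℤ[X]).natDegree ≤ 18 := by compute_degree <;> norm_num
    refine (Nat.add_le_add_right this _).trans ?_
    decide

theorem rev_z7 : Rev (27 * c4p a1_z7 a2_z7 a3_z7) (54 * c6p a1_z7 a2_z7 a3_z7)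
    2 4 f_z7 n_z7 := by
  have h : ∀ x0 x1 x2 : ℤ[X], (x0 ^ 7 * x1 ^ 7 * x2) * (x2 ^ 6) =
      1 * (x0 * x1 * x2) ^ 7 := by intros; ring
  refine rev_mk a1_z7 a2_z7 a3_z7 2 4 7 1 f_z7 n_z7 ((X ^ 3 - 8 * X ^ 2 + 5 * X + 1) ^ 6) (by norm_num) ?_ ?_
  · rw [D_z7, prod_z7]
    push_cast
    exact h X (X - 1) (X ^ 3 - 8 * X ^ 2 + 5 * X + 1)
  · have : ((X ^ 3 - 8 * X ^ 2 + 5 * X + 1) ^ 6 : ℤ[X]).natDegree ≤ 18 := by compute_degree <;> norm_num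
    refine (Nat.add_le_add_right this _).trans ?_
    decide

noncomputable def f_z8 : Fin 5 → ℤ[X] := ![X, X - 1, 2 * X - 1, 1, 8 * X ^ 2 - 8 * X + 1]
def n_z8 : Fin 5 → ℕ := ![1, 1, 1, 1, 2]

theorem prod_z8 : ∏ i, f_z8 i = X * (X - 1) * (2 * X - 1) * (8 * X ^ 2 - 8 * X + 1) := by
  simp [f_z8, Fin.prod_univ_succ] <;> ring

theorem famB_z8 : FamB (27 * c4p a1_z8 a2_z8 a3_z8) (54 * c6p a1_z8 a2_z8 a3_z8)
    2 5 f_z8 n_z8 := by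
  refine famB_mk a1_z8 a2_z8 a3_z8 (16 * X ^ 5 - 40 * X ^ 4 + 34 * X ^ 3 - 11 * X ^ 2 + X)
    (X ^ 7 * (X - 1) ^ 7 * (2 * X - 1) ^ 3) (80 * X ^ 4 - 160 * X ^ 3 + 102 * X ^ 2 - 22 * X + 1)
    (-1120 * X ^ 3 + 1680 * X ^ 2 - 708 * X + 74)
    (224 * X ^ 4 - 448 * X ^ 3 + 276 * X ^ 2 - 52 * X + 1) 2 1 4 5 1 fam_z8 f_z8 n_z8
    ?_ ?_ ?_ ?_ (by norm_num) ?_ ?_ ?_
  · intro i
    fin_cases i <;> simp [f_z8, n_z8] <;> compute_degree <;> norm_num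
  · rw [prod_z8]; ring
  · have : (16 * X ^ 5 - 40 * X ^ 4 + 34 * X ^ 3 - 11 * X ^ 2 + X : ℤ[X]).natDegree = 5 := by compute_degree!
    rw [this]
    decide
  · simp <;> ring
  · push_cast; ring
  · rw [D_z8]; ring
  · have : (X ^ 7 * (X - 1) ^ 7 * (2 * X - 1) ^ 3 : ℤ[X]).natDegree ≤ 18 := by compute_degree <;> norm_num
    refine (Nat.add_le_add_right this _).trans ?_
    decide

theorem rev_z8 : Rev (27 * c4p a1_z8 a2_z8 a3_z8) (54 * c6p a1_z8 a2_z8 a3_z8)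
    2 5 f_z8 n_z8 := by
  have h : ∀ x0 x1 x2 x3 : ℤ[X], (x0 ^ 8 * x1 ^ 8 * x2 ^ 4 * x3) * (x2 ^ 4 * x3 ^ 7) =
      1 * (x0 * x1 * x2 * x3) ^ 8 := by intros; ring
  refine rev_mk a1_z8 a2_z8 a3_z8 2 5 8 1 f_z8 n_z8 ((2 * X - 1) ^ 4 * (8 * X ^ 2 - 8 * X + 1) ^ 7) (by norm_num) ?_ ?_
  · rw [D_z8, prod_z8]
    push_cast
    exact h X (X - 1) (2 * X - 1) (8 * X ^ 2 - 8 * X + 1)
  · have : ((2 * X - 1) ^ 4 * (8 * X ^ 2 - 8 * X + 1) ^ 7 : ℤ[X]).natDegree ≤ 18 := by compute_degree <;> norm_num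
    refine (Nat.add_le_add_right this _).trans ?_
    decide

noncomputable def f_z2x4 : Fin 4 → ℤ[X] := ![X, X - 1, X + 1, 1]
def n_z2x4 : Fin 4 → ℕ := ![1, 1, 1, 1]

theorem prod_z2x4 : ∏ i, f_z2x4 i = X * (X - 1) * (X + 1) := by
  simp [f_z2x4, Fin.prod_univ_succ] <;> ring

theorem famB_z2x4 : FamB (27 * c4p a1_z2x4 a2_z2x4 a3_z2x4) (54 * c6p a1_z2x4 a2_z2x4 a3_z2x4)
    1 4 f_z2x4 n_z2x4 := by
  refine famB_mk a1_z2x4 a2_z2x4 a3_z2x4 (X ^ 3 - X)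
    (256 * X ^ 1 * (X - 1) ^ 3 * (X + 1) ^ 3) (3 * X ^ 2 - 1)
    (-9 * X)
    (3 * X ^ 2 - 2) 1 0 4 4 2 fam_z2x4 f_z2x4 n_z2x4
    ?_ ?_ ?_ ?_ (by norm_num) ?_ ?_ ?_
  · intro i
    fin_cases i <;> simp [f_z2x4, n_z2x4] <;> compute_degree <;> norm_num
  · rw [prod_z2x4]; ring
  · have : (X ^ 3 - X : ℤ[X]).natDegree = 3 := by compute_degree!
    rw [this]
    decide
  · simp <;> ring
  · push_cast; ring
  · rw [D_z2x4]; ring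
  · have : (256 * X ^ 1 * (X - 1) ^ 3 * (X + 1) ^ 3 : ℤ[X]).natDegree ≤ 8 := by compute_degree <;> norm_num
    refine (Nat.add_le_add_right this _).trans ?_
    decide

theorem rev_z2x4 : Rev (27 * c4p a1_z2x4 a2_z2x4 a3_z2x4) (54 * c6p a1_z2x4 a2_z2x4 a3_z2x4)
    1 4 f_z2x4 n_z2x4 := by
  have h : ∀ x0 x1 x2 : ℤ[X], (256 * x0 ^ 2 * x1 ^ 4 * x2 ^ 4) * (x0 ^ 2) =
      256 * (x0 * x1 * x2) ^ 4 := by intros; ring
  refine rev_mk a1_z2x4 a2_z2x4 a3_z2x4 1 4 4 256 f_z2x4 n_z2x4 (X ^ 2) (by norm_num) ?_ ?_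
  · rw [D_z2x4, prod_z2x4]
    push_cast
    exact h X (X - 1) (X + 1)
  · have : (X ^ 2 : ℤ[X]).natDegree ≤ 2 := by compute_degree <;> norm_num
    refine (Nat.add_le_add_right this _).trans ?_
    decide

end Pool.Agent.TH498.HF
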