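import Pool.Agent.TH498.HF.FB
import Pool.Agent.TH498.KB.Kub2

/-!
# Kubert's families, block by block
-/

set_option autoImplicit false
set_option maxHeartbeats 4000000

namespace Pool.Agent.TH498.HF

open Finset Polynomial Pool.Agent.TH498.KB

noncomputable def f_z9 : Fin 5 → ℤ[X] := ![X, X - 1, 1, X ^ 2 - X + 1, X ^ 3 - 6 * X ^ 2 + 3 * X + 1]
def n_z9 : Fin 5 → ℕ := ![1, 1, 1, 2, 3]

theorem prod_z9 : ∏ i, f_z9 i = X * (X - 1) * (X ^ 2 - X + 1) * (X ^ 3 - 6 * X ^ 2 + 3 * X + 1) := by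
  simp [f_z9, Fin.prod_univ_succ] <;> ring

theorem famB_z9 : FamB (27 * c4p a1_z9 a2_z9 a3_z9) (54 * c6p a1_z9 a2_z9 a3_z9)
    3 5 f_z9 n_z9 := by
  refine famB_mk a1_z9 a2_z9 a3_z9 (X ^ 7 - 8 * X ^ 6 + 17 * X ^ 5 - 18 * X ^ 4 + 10 * X ^ 3 - X ^ 2 - X)
    (X ^ 8 * (X - 1) ^ 8 * (X ^ 2 - X + 1) ^ 2) (7 * X ^ 6 - 48 * X ^ 5 + 85 * X ^ 4 - 72 * X ^ 3 + 30 * X ^ 2 - 2 * X - 1)
    (-8302 * X ^ 5 + 51601 * X ^ 4 - 69056 * X ^ 3 + 49271 * X ^ 2 - 13832 * X - 56)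
    (1186 * X ^ 6 - 8727 * X ^ 5 + 14756 * X ^ 4 - 13271 * X ^ 3 + 5514 * X ^ 2 + 542 * X - 243) 3 2 3 5 243 fam_z9 f_z9 n_z9
    ?_ ?_ ?_ ?_ (by norm_num) ?_ ?_ ?_
  · intro i
    fin_cases i <;> simp [f_z9, n_z9] <;> compute_degree <;> norm_num
  · rw [prod_z9]; ring
  · have : (X ^ 7 - 8 * X ^ 6 + 17 * X ^ 5 - 18 * X ^ 4 + 10 * X ^ 3 - X ^ 2 - X : ℤ[X]).natDegree = 7 := by compute_degree!
    rw [this]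
    decide
  · simp <;> ring
  · push_cast; ring
  · rw [D_z9]; ring
  · have : (X ^ 8 * (X - 1) ^ 8 * (X ^ 2 - X + 1) ^ 2 : ℤ[X]).natDegree ≤ 28 := by compute_degree <;> norm_num
    refine (Nat.add_le_add_right this _).trans ?_
    decide

theorem rev_z9 : Rev (27 * c4p a1_z9 a2_z9 a3_z9) (54 * c6p a1_z9 a2_z9 a3_z9)
    3 5 f_z9 n_z9 := by
  have h : ∀ x0 x1 x2 x3 : ℤ[X], (x0 ^ 9 * x1 ^ 9 * x2 ^ 3 * x3) * (x2 ^ 6 * x3 ^ 8) =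
      1 * (x0 * x1 * x2 * x3) ^ 9 := by intros; ring
  refine rev_mk a1_z9 a2_z9 a3_z9 3 5 9 1 f_z9 n_z9 ((X ^ 2 - X + 1) ^ 6 * (X ^ 3 - 6 * X ^ 2 + 3 * X + 1) ^ 8) (by norm_num) ?_ ?_
  · rw [D_z9, prod_z9]
    push_cast
    exact h X (X - 1) (X ^ 2 - X + 1) (X ^ 3 - 6 * X ^ 2 + 3 * X + 1)
  · have : ((X ^ 2 - X + 1) ^ 6 * (X ^ 3 - 6 * X ^ 2 + 3 * X + 1) ^ 8 : ℤ[X]).natDegree ≤ 36 := by compute_degree <;> norm_num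
    refine (Nat.add_le_add_right this _).trans ?_
    decide

noncomputable def f_z10 : Fin 6 → ℤ[X] := ![X, X - 1, 2 * X - 1, 1, X ^ 2 - 3 * X + 1, 4 * X ^ 2 - 2 * X - 1]
def n_z10 : Fin 6 → ℕ := ![1, 1, 1, 1, 2, 2]

theorem prod_z10 : ∏ i, f_z10 i = X * (X - 1) * (2 * X - 1) * (X ^ 2 - 3 * X + 1) * (4 * X ^ 2 - 2 * X - 1) := by
  simp [f_z10, Fin.prod_univ_succ] <;> ring

theorem famB_z10 : FamB (27 * c4p a1_z10 a2_z10 a3_z10) (54 * c6p a1_z10 a2_z10 a3_z10)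
    3 6 f_z10 n_z10 := by
  refine famB_mk a1_z10 a2_z10 a3_z10 (8 * X ^ 7 - 40 * X ^ 6 + 64 * X ^ 5 - 39 * X ^ 4 + 4 * X ^ 3 + 4 * X ^ 2 - X)
    (X ^ 9 * (X - 1) ^ 9 * (2 * X - 1) ^ 4 * (X ^ 2 - 3 * X + 1) ^ 1) (56 * X ^ 6 - 240 * X ^ 5 + 320 * X ^ 4 - 156 * X ^ 3 + 12 * X ^ 2 + 8 * X - 1)
    (-170016 * X ^ 5 + 647328 * X ^ 4 - 664704 * X ^ 3 + 164520 * X ^ 2 + 36752 * X - 6832)
    (24288 * X ^ 6 - 109824 * X ^ 5 + 142176 * X ^ 4 - 51948 * X ^ 3 - 11324 * X ^ 2 + 6632 * X - 25) 3 2 4 6 25 fam_z10 f_z10 n_z10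
    ?_ ?_ ?_ ?_ (by norm_num) ?_ ?_ ?_
  · intro i
    fin_cases i <;> simp [f_z10, n_z10] <;> compute_degree <;> norm_num
  · rw [prod_z10]; ring
  · have : (8 * X ^ 7 - 40 * X ^ 6 + 64 * X ^ 5 - 39 * X ^ 4 + 4 * X ^ 3 + 4 * X ^ 2 - X : ℤ[X]).natDegree = 7 := by compute_degree!
    rw [this]
    decide
  · simp <;> ring
  · push_cast; ring
  · rw [D_z10]; ring
  · have : (X ^ 9 * (X - 1) ^ 9 * (2 * X - 1) ^ 4 * (X ^ 2 - 3 * X + 1) ^ 1 : ℤ[X]).natDegree ≤ 28 := by compute_degree <;> norm_num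
    refine (Nat.add_le_add_right this _).trans ?_
    decide

theorem rev_z10 : Rev (27 * c4p a1_z10 a2_z10 a3_z10) (54 * c6p a1_z10 a2_z10 a3_z10)
    3 6 f_z10 n_z10 := by
  have h : ∀ x0 x1 x2 x3 x4 : ℤ[X], (x0 ^ 10 * x1 ^ 10 * x2 ^ 5 * x3 ^ 2 * x4) * (x2 ^ 5 * x3 ^ 8 * x4 ^ 9) =
      1 * (x0 * x1 * x2 * x3 * x4) ^ 10 := by intros; ring
  refine rev_mk a1_z10 a2_z10 a3_z10 3 6 10 1 f_z10 n_z10 ((2 * X - 1) ^ 5 * (X ^ 2 - 3 * X + 1) ^ 8 * (4 * X ^ 2 - 2 * X - 1) ^ 9) (by norm_num) ?_ ?_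
  · rw [D_z10, prod_z10]
    push_cast
    exact h X (X - 1) (2 * X - 1) (X ^ 2 - 3 * X + 1) (4 * X ^ 2 - 2 * X - 1)
  · have : ((2 * X - 1) ^ 5 * (X ^ 2 - 3 * X + 1) ^ 8 * (4 * X ^ 2 - 2 * X - 1) ^ 9 : ℤ[X]).natDegree ≤ 39 := by compute_degree <;> norm_num
    refine (Nat.add_le_add_right this _).trans ?_
    decide

noncomputable def f_z2x6 : Fin 6 → ℤ[X] := ![X - 1, X - 3, X + 3, X - 5, X - 9, 1]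
def n_z2x6 : Fin 6 → ℕ := ![1, 1, 1, 1, 1, 1]

theorem prod_z2x6 : ∏ i, f_z2x6 i = (X - 1) * (X - 3) * (X + 3) * (X - 5) * (X - 9) := by
  simp [f_z2x6, Fin.prod_univ_succ] <;> ring

theorem famB_z2x6 : FamB (27 * c4p a1_z2x6 a2_z2x6 a3_z2x6) (54 * c6p a1_z2x6 a2_z2x6 a3_z2x6)
    2 6 f_z2x6 n_z2x6 := by
  refine famB_mk a1_z2x6 a2_z2x6 a3_z2x6 (X ^ 5 - 15 * X ^ 4 + 50 * X ^ 3 + 90 * X ^ 2 - 531 * X + 405)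
    (64 * (X - 1) ^ 5 * (X - 3) ^ 1 * (X + 3) ^ 1 * (X - 5) ^ 5 * (X - 9) ^ 1) (5 * X ^ 4 - 60 * X ^ 3 + 150 * X ^ 2 + 180 * X - 531)
    (-175 * X ^ 3 + 1575 * X ^ 2 - 825 * X - 6975)
    (35 * X ^ 4 - 420 * X ^ 3 + 550 * X ^ 2 + 4260 * X - 6153) 2 0 6 6 442368 fam_z2x6 f_z2x6 n_z2x6
    ?_ ?_ ?_ ?_ (by norm_num) ?_ ?_ ?_
  · intro i
    fin_cases i <;> simp [f_z2x6, n_z2x6] <;> compute_degree <;> norm_num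
  · rw [prod_z2x6]; ring
  · have : (X ^ 5 - 15 * X ^ 4 + 50 * X ^ 3 + 90 * X ^ 2 - 531 * X + 405 : ℤ[X]).natDegree = 5 := by compute_degree!
    rw [this]
    decide
  · simp <;> ring
  · push_cast; ring
  · rw [D_z2x6]; ring
  · have : (64 * (X - 1) ^ 5 * (X - 3) ^ 1 * (X + 3) ^ 1 * (X - 5) ^ 5 * (X - 9) ^ 1 : ℤ[X]).natDegree ≤ 18 := by compute_degree <;> norm_num
    refine (Nat.add_le_add_right this _).trans ?_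
    decide

theorem rev_z2x6 : Rev (27 * c4p a1_z2x6 a2_z2x6 a3_z2x6) (54 * c6p a1_z2x6 a2_z2x6 a3_z2x6)
    2 6 f_z2x6 n_z2x6 := by
  have h : ∀ x0 x1 x2 x3 x4 : ℤ[X], (64 * x0 ^ 6 * x1 ^ 2 * x2 ^ 2 * x3 ^ 6 * x4 ^ 2) * (x1 ^ 4 * x2 ^ 4 * x4 ^ 4) =
      64 * (x0 * x1 * x2 * x3 * x4) ^ 6 := by intros; ring
  refine rev_mk a1_z2x6 a2_z2x6 a3_z2x6 2 6 6 64 f_z2x6 n_z2x6 ((X - 3) ^ 4 * (X + 3) ^ 4 * (X - 9) ^ 4) (by norm_num) ?_ ?_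
  · rw [D_z2x6, prod_z2x6]
    push_cast
    exact h (X - 1) (X - 3) (X + 3) (X - 5) (X - 9)
  · have : ((X - 3) ^ 4 * (X + 3) ^ 4 * (X - 9) ^ 4 : ℤ[X]).natDegree ≤ 12 := by compute_degree <;> norm_num
    refine (Nat.add_le_add_right this _).trans ?_
    decide

end Pool.Agent.TH498.HF
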