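import Pool.Agent.TH498.HF.FB
import Pool.Agent.TH498.KB.Kub3

/-!
# Kubert's families, block by block
-/

set_option autoImplicit false
set_option maxHeartbeats 4000000

namespace Pool.Agent.TH498.HF

open Finset Polynomial Pool.Agent.TH498.KB

noncomputable def f_z12 : Fin 7 → ℤ[X] := ![X, X - 1, 2 * X - 1, 1, 2 * X ^ 2 - 2 * X + 1, 3 * X ^ 2 - 3 * X + 1, 6 * X ^ 2 - 6 * X + 1]
def n_z12 : Fin 7 → ℕ := ![1, 1, 1, 1, 2, 2, 2]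

theorem prod_z12 : ∏ i, f_z12 i = X * (X - 1) * (2 * X - 1) * (2 * X ^ 2 - 2 * X + 1) * (3 * X ^ 2 - 3 * X + 1) * (6 * X ^ 2 - 6 * X + 1) := by
  simp [f_z12, Fin.prod_univ_succ] <;> ring

theorem famB_z12 : FamB (27 * c4p a1_z12 a2_z12 a3_z12) (54 * c6p a1_z12 a2_z12 a3_z12)
    4 7 f_z12 n_z12 := by
  refine famB_mk a1_z12 a2_z12 a3_z12 (72 * X ^ 9 - 324 * X ^ 8 + 648 * X ^ 7 - 756 * X ^ 6 + 562 * X ^ 5 - 271 * X ^ 4 + 82 * X ^ 3 - 14 * X ^ 2 + X)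
    (X ^ 11 * (X - 1) ^ 11 * (2 * X - 1) ^ 5 * (2 * X ^ 2 - 2 * X + 1) ^ 2 * (3 * X ^ 2 - 3 * X + 1) ^ 3) (648 * X ^ 8 - 2592 * X ^ 7 + 4536 * X ^ 6 - 4536 * X ^ 5 + 2810 * X ^ 4 - 1084 * X ^ 3 + 246 * X ^ 2 - 28 * X + 1)
    (-876096 * X ^ 7 + 3066336 * X ^ 6 - 4599504 * X ^ 5 + 3832920 * X ^ 4 - 1884280 * X ^ 3 + 526668 * X ^ 2 - 71688 * X + 2822)
    (97344 * X ^ 8 - 389376 * X ^ 7 + 681408 * X ^ 6 - 681408 * X ^ 5 + 419300 * X ^ 4 - 157192 * X ^ 3 + 32718 * X ^ 2 - 2794 * X + 1) 4 3 4 7 1 fam_z12 f_z12 n_z12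
    ?_ ?_ ?_ ?_ (by norm_num) ?_ ?_ ?_
  · intro i
    fin_cases i <;> simp [f_z12, n_z12] <;> compute_degree <;> norm_num
  · rw [prod_z12]; ring
  · have : (72 * X ^ 9 - 324 * X ^ 8 + 648 * X ^ 7 - 756 * X ^ 6 + 562 * X ^ 5 - 271 * X ^ 4 + 82 * X ^ 3 - 14 * X ^ 2 + X : ℤ[X]).natDegree = 9 := by compute_degree!
    rw [this]
    decide
  · simp <;> ring
  · push_cast; ring
  · rw [D_z12]; ring
  · have : (X ^ 11 * (X - 1) ^ 11 * (2 * X - 1) ^ 5 * (2 * X ^ 2 - 2 * X + 1) ^ 2 * (3 * X ^ 2 - 3 * X + 1) ^ 3 : ℤ[X]).natDegree ≤ 38 := by compute_degree <;> norm_num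
    refine (Nat.add_le_add_right this _).trans ?_
    decide

theorem rev_z12 : Rev (27 * c4p a1_z12 a2_z12 a3_z12) (54 * c6p a1_z12 a2_z12 a3_z12)
    4 7 f_z12 n_z12 := by
  have h : ∀ x0 x1 x2 x3 x4 x5 : ℤ[X], (x0 ^ 12 * x1 ^ 12 * x2 ^ 6 * x3 ^ 3 * x4 ^ 4 * x5) * (x2 ^ 6 * x3 ^ 9 * x4 ^ 8 * x5 ^ 11) =
      1 * (x0 * x1 * x2 * x3 * x4 * x5) ^ 12 := by intros; ring
  refine rev_mk a1_z12 a2_z12 a3_z12 4 7 12 1 f_z12 n_z12 ((2 * X - 1) ^ 6 * (2 * X ^ 2 - 2 * X + 1) ^ 9 * (3 * X ^ 2 - 3 * X + 1) ^ 8 * (6 * X ^ 2 - 6 * X + 1) ^ 11) (by norm_num) ?_ ?_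
  · rw [D_z12, prod_z12]
    push_cast
    exact h X (X - 1) (2 * X - 1) (2 * X ^ 2 - 2 * X + 1) (3 * X ^ 2 - 3 * X + 1) (6 * X ^ 2 - 6 * X + 1)
  · have : ((2 * X - 1) ^ 6 * (2 * X ^ 2 - 2 * X + 1) ^ 9 * (3 * X ^ 2 - 3 * X + 1) ^ 8 * (6 * X ^ 2 - 6 * X + 1) ^ 11 : ℤ[X]).natDegree ≤ 62 := by compute_degree <;> norm_num
    refine (Nat.add_le_add_right this _).trans ?_
    decide

end Pool.Agent.TH498.HF
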