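import Pool.Agent.TH498.HF.FB
import Pool.Agent.TH498.KB.Kub4

/-!
# Kubert's families, block by block
-/

set_option autoImplicit false
set_option maxHeartbeats 4000000

namespace Pool.Agent.TH498.HF

open Finset Polynomial Pool.Agent.TH498.KB

noncomputable def f_z2x8 : Fin 7 → ℤ[X] := ![X, X + 1, 2 * X + 1, 1, 2 * X ^ 2 - 1, 2 * X ^ 2 + 2 * X + 1, 2 * X ^ 2 + 4 * X + 1]
def n_z2x8 : Fin 7 → ℕ := ![1, 1, 1, 1, 2, 2, 2]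

theorem prod_z2x8 : ∏ i, f_z2x8 i = X * (X + 1) * (2 * X + 1) * (2 * X ^ 2 - 1) * (2 * X ^ 2 + 2 * X + 1) * (2 * X ^ 2 + 4 * X + 1) := by
  simp [f_z2x8, Fin.prod_univ_succ] <;> ring

theorem famB_z2x8 : FamB (27 * c4p a1_z2x8 a2_z2x8 a3_z2x8) (54 * c6p a1_z2x8 a2_z2x8 a3_z2x8)
    4 7 f_z2x8 n_z2x8 := by
  refine famB_mk a1_z2x8 a2_z2x8 a3_z2x8 (16 * X ^ 9 + 72 * X ^ 8 + 120 * X ^ 7 + 84 * X ^ 6 - 42 * X ^ 4 - 30 * X ^ 3 - 9 * X ^ 2 - X)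
    (X ^ 7 * (X + 1) ^ 7 * (2 * X + 1) ^ 7 * (2 * X ^ 2 - 1) ^ 1 * (2 * X ^ 2 + 2 * X + 1) ^ 3 * (2 * X ^ 2 + 4 * X + 1) ^ 1) (144 * X ^ 8 + 576 * X ^ 7 + 840 * X ^ 6 + 504 * X ^ 5 - 168 * X ^ 3 - 90 * X ^ 2 - 18 * X - 1)
    (-231984 * X ^ 7 - 811944 * X ^ 6 - 951048 * X ^ 5 - 347760 * X ^ 4 + 163872 * X ^ 3 + 187596 * X ^ 2 + 54162 * X + 3555)
    (25776 * X ^ 8 + 103104 * X ^ 7 + 142188 * X ^ 6 + 65700 * X ^ 5 - 31248 * X ^ 4 - 51708 * X ^ 3 - 23103 * X ^ 2 - 3483 * X - 4) 4 3 4 7 4 fam_z2x8 f_z2x8 n_z2x8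
    ?_ ?_ ?_ ?_ (by norm_num) ?_ ?_ ?_
  · intro i
    fin_cases i <;> simp [f_z2x8, n_z2x8] <;> compute_degree <;> norm_num
  · rw [prod_z2x8]; ring
  · have : (16 * X ^ 9 + 72 * X ^ 8 + 120 * X ^ 7 + 84 * X ^ 6 - 42 * X ^ 4 - 30 * X ^ 3 - 9 * X ^ 2 - X : ℤ[X]).natDegree = 9 := by compute_degree!
    rw [this]
    decide
  · simp <;> ring
  · push_cast; ring
  · rw [D_z2x8]; ring
  · have : (X ^ 7 * (X + 1) ^ 7 * (2 * X + 1) ^ 7 * (2 * X ^ 2 - 1) ^ 1 * (2 * X ^ 2 + 2 * X + 1) ^ 3 * (2 * X ^ 2 + 4 * X + 1) ^ 1 : ℤ[X]).natDegree ≤ 38 := by compute_degree <;> norm_num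
    refine (Nat.add_le_add_right this _).trans ?_
    decide

theorem rev_z2x8 : Rev (27 * c4p a1_z2x8 a2_z2x8 a3_z2x8) (54 * c6p a1_z2x8 a2_z2x8 a3_z2x8)
    4 7 f_z2x8 n_z2x8 := by
  have h : ∀ x0 x1 x2 x3 x4 x5 : ℤ[X], (x0 ^ 8 * x1 ^ 8 * x2 ^ 8 * x3 ^ 2 * x4 ^ 4 * x5 ^ 2) * (x3 ^ 6 * x4 ^ 4 * x5 ^ 6) =
      1 * (x0 * x1 * x2 * x3 * x4 * x5) ^ 8 := by intros; ring
  refine rev_mk a1_z2x8 a2_z2x8 a3_z2x8 4 7 8 1 f_z2x8 n_z2x8 ((2 * X ^ 2 - 1) ^ 6 * (2 * X ^ 2 + 2 * X + 1) ^ 4 * (2 * X ^ 2 + 4 * X + 1) ^ 6) (by norm_num) ?_ ?_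
  · rw [D_z2x8, prod_z2x8]
    push_cast
    exact h X (X + 1) (2 * X + 1) (2 * X ^ 2 - 1) (2 * X ^ 2 + 2 * X + 1) (2 * X ^ 2 + 4 * X + 1)
  · have : ((2 * X ^ 2 - 1) ^ 6 * (2 * X ^ 2 + 2 * X + 1) ^ 4 * (2 * X ^ 2 + 4 * X + 1) ^ 6 : ℤ[X]).natDegree ≤ 32 := by compute_degree <;> norm_num
    refine (Nat.add_le_add_right this _).trans ?_
    decide

end Pool.Agent.TH498.HF
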