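import Pool.Agent.TH498.HF.FB
import Pool.Agent.TH498.KB.Tors

/-!
# Many members of a family with a small conductor
-/

set_option autoImplicit false

namespace Pool.Agent.TH498.HF

open Finset Polynomial Pool.Agent.W4.CF Pool.Agent.W4.VC Pool.Agent.TH498.KB

/-- coprime pairs in `[1, H]²` -/
def cpr (H : ℕ) : Finset (ℕ × ℕ) := ((Ioc 0 H) ×ˢ (Ioc 0 H)).filter fun p => Nat.Coprime p.1 p.2

theorem sum_sq_le' (N : ℕ) (hN : 2 ≤ N) :
    ∑ d ∈ Finset.Icc 2 N, (1 : ℝ) / (d : ℝ) ^ 2 ≤ 3 / 4 - 1 / N := by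
  induction N, hN using Nat.le_induction with
  | base => norm_num
  | succ n hn ih =>
    rw [Finset.sum_Icc_succ_top (by omega)]
    have hn0 : (0 : ℝ) < n := by exact_mod_cast (by omega : 0 < n)
    have h1 : (1 : ℝ) / ((n + 1 : ℕ) : ℝ) ^ 2 ≤ 1 / n - 1 / ((n + 1 : ℕ) : ℝ) := by
      push_cast
      rw [div_sub_div _ _ hn0.ne' (by positivity), div_le_div_iff₀ (by positivity)
        (by positivity)]
      nlinarith
    linarith

theorem cpr_card (N : ℕ) : (N : ℝ) ^ 2 / 4 ≤ ((cpr N).card : ℝ) := by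
  classical
  set P := (Finset.Ioc 0 N) ×ˢ (Finset.Ioc 0 N) with hP
  set Q' := P.filter fun p => ¬ Nat.Coprime p.1 p.2 with hQ'
  have hPc : P.card = N * N := by
    rw [hP, Finset.card_product, Nat.card_Ioc, Nat.sub_zero]
  have h1 : P.card = (cpr N).card + Q'.card :=
    (Finset.card_filter_add_card_filter_not (s := P) (fun p => Nat.Coprime p.1 p.2)).symm
  have h2 : Q'.card ≤ ∑ d ∈ Finset.Icc 2 N, (N / d) * (N / d) := by
    have hsub : Q' ⊆ (Finset.Icc 2 N).biUnion fun d =>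
        ((Finset.Ioc 0 N).filter fun a => d ∣ a) ×ˢ ((Finset.Ioc 0 N).filter fun a => d ∣ a) := by
      intro p hp
      obtain ⟨h3, h4⟩ := Finset.mem_filter.1 hp
      obtain ⟨h5, h6⟩ := Finset.mem_product.1 h3
      obtain ⟨q, hq, hq1, hq2⟩ := Nat.Prime.not_coprime_iff_dvd.1 h4
      rw [Finset.mem_biUnion]
      refine ⟨q, Finset.mem_Icc.2 ⟨hq.two_le, ?_⟩, Finset.mem_product.2
        ⟨Finset.mem_filter.2 ⟨h5, hq1⟩, Finset.mem_filter.2 ⟨h6, hq2⟩⟩⟩
      exact (Nat.le_of_dvd (Finset.mem_Ioc.1 h5).1 hq1).trans (Finset.mem_Ioc.1 h5).2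
    refine (Finset.card_le_card hsub).trans (Finset.card_biUnion_le.trans
      (Finset.sum_le_sum fun d _ => ?_))
    rw [Finset.card_product, Nat.Ioc_filter_dvd_card_eq_div]
  have h3 : ((∑ d ∈ Finset.Icc 2 N, (N / d) * (N / d) : ℕ) : ℝ) ≤ 3 / 4 * (N : ℝ) ^ 2 := by
    rcases Nat.lt_or_ge N 2 with h | h
    · rw [Finset.Icc_eq_empty (by omega), Finset.sum_empty, Nat.cast_zero]
      positivity
    · have hN0 : (0 : ℝ) < N := by exact_mod_cast (by omega : 0 < N)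
      push_cast
      calc ∑ d ∈ Finset.Icc 2 N, (((N / d : ℕ) : ℝ) * ((N / d : ℕ) : ℝ)) ≤
          ∑ d ∈ Finset.Icc 2 N, (N : ℝ) ^ 2 * (1 / (d : ℝ) ^ 2) := by
            refine Finset.sum_le_sum fun d hd => ?_
            have hd0 : (0 : ℝ) < d := by
              have := (Finset.mem_Icc.1 hd).1
              exact_mod_cast (by omega : 0 < d)
            have h4 : ((N / d : ℕ) : ℝ) ≤ (N : ℝ) / d := Nat.cast_div_le
            calc ((N / d : ℕ) : ℝ) * ((N / d : ℕ) : ℝ) ≤ (N : ℝ) / d * ((N : ℝ) / d) :=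
                mul_le_mul h4 h4 (Nat.cast_nonneg _) (by positivity)
              _ = _ := by field_simp
        _ = (N : ℝ) ^ 2 * ∑ d ∈ Finset.Icc 2 N, (1 / (d : ℝ) ^ 2) := by rw [Finset.mul_sum]
        _ ≤ (N : ℝ) ^ 2 * (3 / 4) := by
            refine mul_le_mul_of_nonneg_left ?_ (by positivity)
            have := sum_sq_le' N h
            have h5 : (0 : ℝ) < 1 / N := by positivity
            linarith
        _ = _ := by ring
  have h5 : (Q'.card : ℝ) ≤ 3 / 4 * (N : ℝ) ^ 2 := by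
    refine le_trans ?_ h3
    exact_mod_cast h2
  have h6 : ((N : ℝ) * N) = (cpr N).card + Q'.card := by
    rw [hPc] at h1
    exact_mod_cast h1
  nlinarith

/-- the minimal model -/
theorem min_model (A1 B1 : ℤ) (M : ℕ) (hM : 1 ≤ M) (hD : 4 * A1 ^ 3 - 27 * B1 ^ 2 ≠ 0)
    (hbez : ∀ d : ℤ, d ∣ A1 → d ∣ B1 → d ∣ (M : ℤ)) :
    ∃ (u : ℕ) (A0 B0 : ℤ), 1 ≤ u ∧ u ∣ M ∧ A1 = (u : ℤ) ^ 4 * A0 ∧ B1 = (u : ℤ) ^ 6 * B0 ∧
      MinS A0 B0 := by
  classical
  set s : Finset ℕ := (Icc 1 M).filter (fun u : ℕ => (u : ℤ) ^ 4 ∣ A1 ∧ (u : ℤ) ^ 6 ∣ B1) with hs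
  have hne : s.Nonempty := ⟨1, mem_filter.mpr ⟨mem_Icc.mpr ⟨le_rfl, hM⟩, by simp⟩⟩
  obtain ⟨u, hu, hmax⟩ := s.exists_max_image id hne
  obtain ⟨hu1, ⟨A0, hA0⟩, ⟨B0, hB0⟩⟩ := mem_filter.mp hu
  have hu1' := (mem_Icc.mp hu1).1
  have huM : (u : ℤ) ∣ (M : ℤ) := hbez _
    (hA0 ▸ Dvd.dvd.mul_right (dvd_pow_self _ (by norm_num)) _)
    (hB0 ▸ Dvd.dvd.mul_right (dvd_pow_self _ (by norm_num)) _)
  have hD0 : 4 * A0 ^ 3 - 27 * B0 ^ 2 ≠ 0 := by
    intro h0
    apply hD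
    rw [hA0, hB0]
    linear_combination (u : ℤ) ^ 12 * h0
  refine ⟨u, A0, B0, hu1', by exact_mod_cast huM, hA0, hB0, hD0, ?_⟩
  intro v a' b' hv ha hb
  have hvd : (v.den : ℚ) ≠ 0 := by exact_mod_cast v.den_nz
  have ha3 : a' * (v.den : ℤ) ^ 4 = v.num ^ 4 * A0 := by
    have : ((a' * (v.den : ℤ) ^ 4 : ℤ) : ℚ) = ((v.num ^ 4 * A0 : ℤ) : ℚ) := by
      push_cast
      rw [ha]
      nth_rewrite 1 [← Rat.num_div_den v]
      field_simp
    exact_mod_cast this
  have hb3 : b' * (v.den : ℤ) ^ 6 = v.num ^ 6 * B0 := by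
    have : ((b' * (v.den : ℤ) ^ 6 : ℤ) : ℚ) = ((v.num ^ 6 * B0 : ℤ) : ℚ) := by
      push_cast
      rw [hb]
      nth_rewrite 1 [← Rat.num_div_den v]
      field_simp
    exact_mod_cast this
  have hcv : IsCoprime v.num (v.den : ℤ) := by
    rw [Int.isCoprime_iff_gcd_eq_one]
    exact v.reduced
  have d1 : (v.den : ℤ) ^ 4 ∣ A0 :=
    (IsCoprime.pow hcv.symm).dvd_of_dvd_mul_left (ha3 ▸ Dvd.intro_left _ rfl)
  have d2 : (v.den : ℤ) ^ 6 ∣ B0 :=
    (IsCoprime.pow hcv.symm).dvd_of_dvd_mul_left (hb3 ▸ Dvd.intro_left _ rfl)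
  have e1 : ((u * v.den : ℕ) : ℤ) ^ 4 ∣ A1 := by
    rw [hA0]
    push_cast
    rw [mul_pow]
    exact mul_dvd_mul_left _ d1
  have e2 : ((u * v.den : ℕ) : ℤ) ^ 6 ∣ B1 := by
    rw [hB0]
    push_cast
    rw [mul_pow]
    exact mul_dvd_mul_left _ d2
  have hden1 : 1 ≤ v.den := v.den_pos
  have hmem : u * v.den ∈ s := by
    refine mem_filter.mpr ⟨mem_Icc.mpr ⟨Nat.mul_pos hu1' hden1, ?_⟩, e1, e2⟩
    have h3 : ((u * v.den : ℕ) : ℤ) ∣ (M : ℤ) :=
      hbez _ ((dvd_pow_self _ (by norm_num)).trans e1) ((dvd_pow_self _ (by norm_num)).trans e2)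
    exact Nat.le_of_dvd (by omega) (by exact_mod_cast h3)
  have hle := hmax _ hmem
  simp only [id] at hle
  have hden : v.den = 1 := by
    by_contra hne1
    have h2 : 2 ≤ v.den := by omega
    nlinarith
  rw [hden] at ha3 hb3
  have ha4 : a' = v.num ^ 4 * A0 := by simpa using ha3
  have hb4 : b' = v.num ^ 6 * B0 := by simpa using hb3
  have hnum : v.num ≠ 0 := Rat.num_ne_zero.mpr hv
  have h1 : 4 * a' ^ 3 - 27 * b' ^ 2 = v.num ^ 12 * (4 * A0 ^ 3 - 27 * B0 ^ 2) := by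
    rw [ha4, hb4]; ring
  rw [h1, abs_mul]
  have h2 : (1 : ℤ) ≤ |v.num ^ 12| := Int.one_le_abs (pow_ne_zero _ hnum)
  nlinarith [abs_nonneg (4 * A0 ^ 3 - 27 * B0 ^ 2)]

/-- the conductor of a model with few additive primes -/
theorem cond_le (A0 B0 : ℤ) (M R : ℕ) (hM : M ≠ 0) (hR : R ≠ 0)
    (hadd : ∀ d : ℤ, d ∣ A0 → d ∣ B0 → d ∣ (M : ℤ))
    (hrad : ∀ p : ℕ, p.Prime → 5 ≤ p → (p : ℤ) ∣ 4 * A0 ^ 3 - 27 * B0 ^ 2 → p ∣ R) :
    Cond A0 B0 ≤ R * M := by
  classical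
  set P := (4 * A0 ^ 3 - 27 * B0 ^ 2).natAbs.primeFactors.filter (fun p : ℕ => 5 ≤ p) with hP
  have hPp : ∀ p ∈ P, p.Prime := fun p hp => Nat.prime_of_mem_primeFactors (mem_filter.mp hp).1
  have hPd : ∀ p ∈ P, (p : ℤ) ∣ 4 * A0 ^ 3 - 27 * B0 ^ 2 := fun p hp =>
    Int.natCast_dvd.mpr (Nat.dvd_of_mem_primeFactors (mem_filter.mp hp).1)
  have h1 : Cond A0 B0 = (∏ p ∈ P, p) * ∏ p ∈ P.filter (fun p : ℕ => (p : ℤ) ∣ A0), p := by
    have h0 : ∏ p ∈ P.filter (fun p : ℕ => (p : ℤ) ∣ A0), p =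
        ∏ p ∈ P, if (p : ℤ) ∣ A0 then p else 1 := Finset.prod_filter _ _
    unfold Cond
    rw [← hP, h0, ← prod_mul_distrib]
    refine prod_congr rfl fun p _ => ?_
    split_ifs
    · ring
    · ring
  rw [h1]
  have h2 : (∏ p ∈ P, p) ∣ R := by
    refine Finset.prod_primes_dvd _ (fun p hp => (hPp p hp).prime) fun p hp => ?_
    exact hrad p (hPp p hp) (mem_filter.mp hp).2 (hPd p hp)
  have h3 : (∏ p ∈ P.filter (fun p : ℕ => (p : ℤ) ∣ A0), p) ∣ M := by
    refine Finset.prod_primes_dvd _ (fun p hp => (hPp p (mem_filter.mp hp).1).prime) fun p hp => ?_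
    obtain ⟨hp1, hp2⟩ := mem_filter.mp hp
    have hpZ : Prime (p : ℤ) := Nat.prime_iff_prime_int.mp (hPp p hp1)
    have h5 := (mem_filter.mp hp1).2
    have h6 : (p : ℤ) ∣ 27 * B0 ^ 2 := by
      have h7 := hPd p hp1
      have h8 : (27 * B0 ^ 2 : ℤ) = 4 * A0 ^ 3 - (4 * A0 ^ 3 - 27 * B0 ^ 2) := by ring
      rw [h8]
      exact dvd_sub (Dvd.dvd.mul_left (dvd_pow hp2 (by norm_num)) _) h7
    have h9 : (p : ℤ) ∣ B0 := by
      rcases hpZ.dvd_or_dvd h6 with h10 | h10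
      · exfalso
        have h11 : p ∣ 27 := by exact_mod_cast h10
        have h12 : p ∣ 3 ^ 3 := by simpa using h11
        have h13 := Nat.le_of_dvd (by norm_num) ((hPp p hp1).dvd_of_dvd_pow h12)
        omega
      · exact hpZ.dvd_of_dvd_pow h10
    exact_mod_cast hadd _ hp2 h9
  exact Nat.mul_le_mul (Nat.le_of_dvd (Nat.pos_of_ne_zero hR) h2)
    (Nat.le_of_dvd (Nat.pos_of_ne_zero hM) h3)

/-- the parameters of a given model -/
theorem fibre (A B : ℤ[X]) (k : ℕ) (hk : 1 ≤ k) (hA : A.natDegree ≤ 4 * k)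
    (hB : B.natDegree ≤ 6 * k) (hlead : A.natDegree = 4 * k ∨ B.natDegree = 6 * k)
    (hcop : IsCoprime (A.map (Int.castRingHom ℚ)) (B.map (Int.castRingHom ℚ)))
    (a b : ℤ) (hD : 4 * a ^ 3 - 27 * b ^ 2 ≠ 0) (s : Finset ℚ)
    (hs : ∀ t ∈ s, ∃ u : ℚ, u ≠ 0 ∧ (A.map (Int.castRingHom ℚ)).eval t = u ^ 4 * a ∧
      (B.map (Int.castRingHom ℚ)).eval t = u ^ 6 * b) : s.card ≤ 12 * k := by
  classical
  set A' := A.map (Int.castRingHom ℚ) with hA'
  set B' := B.map (Int.castRingHom ℚ) with hB'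
  have hinj : Function.Injective (Int.castRingHom ℚ) := Int.cast_injective
  have hdA : A'.natDegree = A.natDegree := natDegree_map_eq_of_injective hinj A
  have hdB : B'.natDegree = B.natDegree := natDegree_map_eq_of_injective hinj B
  set P : ℚ[X] := C ((b : ℚ) ^ 2) * A' ^ 3 - C ((a : ℚ) ^ 3) * B' ^ 2 with hP
  have hunit : ¬ (IsUnit A' ∧ IsUnit B') := by
    rintro ⟨h1, h2⟩
    have h3 := natDegree_eq_zero_of_isUnit h1
    have h4 := natDegree_eq_zero_of_isUnit h2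
    rw [hdA] at h3
    rw [hdB] at h4
    omega
  have hB0 : B' = 0 → False := by
    intro h0
    rw [h0] at hcop
    have h1 : IsUnit A' := isCoprime_zero_right.mp hcop
    have h3 := natDegree_eq_zero_of_isUnit h1
    rw [hdA] at h3
    have h4 : B.natDegree = 0 := by rw [← hdB, h0, natDegree_zero]
    omega
  have hA0 : A' = 0 → False := by
    intro h0
    rw [h0] at hcop
    have h1 : IsUnit B' := isCoprime_zero_left.mp hcop
    have h3 := natDegree_eq_zero_of_isUnit h1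
    rw [hdB] at h3
    have h4 : A.natDegree = 0 := by rw [← hdA, h0, natDegree_zero]
    omega
  have hP0 : P ≠ 0 := by
    intro h0
    have h1 : C ((b : ℚ) ^ 2) * A' ^ 3 = C ((a : ℚ) ^ 3) * B' ^ 2 := sub_eq_zero.mp h0
    by_cases hb : b = 0
    · have ha : a ≠ 0 := by
        rintro rfl
        rw [hb] at hD
        exact hD (by ring)
      rw [hb] at h1
      have h2 : C ((a : ℚ) ^ 3) * B' ^ 2 = 0 := by
        rw [← h1]
        simp
      rcases mul_eq_zero.mp h2 with h3 | h3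
      · rw [C_eq_zero] at h3
        exact ha (by exact_mod_cast pow_eq_zero_iff (n := 3) (by norm_num) |>.mp h3)
      · exact hB0 (pow_eq_zero_iff (by norm_num) |>.mp h3)
    · by_cases ha : a = 0
      · rw [ha] at h1
        have h2 : C ((b : ℚ) ^ 2) * A' ^ 3 = 0 := by
          rw [h1]
          simp
        rcases mul_eq_zero.mp h2 with h3 | h3
        · rw [C_eq_zero] at h3
          exact hb (by exact_mod_cast pow_eq_zero_iff (n := 2) (by norm_num) |>.mp h3)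
        · exact hA0 (pow_eq_zero_iff (by norm_num) |>.mp h3)
      · have hbu : IsUnit (C ((b : ℚ) ^ 2) : ℚ[X]) :=
          isUnit_C.mpr (isUnit_iff_ne_zero.mpr (pow_ne_zero _ (by exact_mod_cast hb)))
        have hau : IsUnit (C ((a : ℚ) ^ 3) : ℚ[X]) :=
          isUnit_C.mpr (isUnit_iff_ne_zero.mpr (pow_ne_zero _ (by exact_mod_cast ha)))
        have hc : IsCoprime (A' ^ 3) (B' ^ 2) := hcop.pow
        have d1 : A' ^ 3 ∣ B' ^ 2 := by
          have : A' ^ 3 ∣ C ((a : ℚ) ^ 3) * B' ^ 2 := h1 ▸ Dvd.intro_left _ rfl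
          exact (hau.dvd_mul_left).mp this
        have d2 : B' ^ 2 ∣ A' ^ 3 := by
          have : B' ^ 2 ∣ C ((b : ℚ) ^ 2) * A' ^ 3 := h1 ▸ Dvd.intro_left _ rfl
          exact (hbu.dvd_mul_left).mp this
        have u1 : IsUnit (A' ^ 3) := hc.isUnit_of_dvd' dvd_rfl d1
        have u2 : IsUnit (B' ^ 2) := hc.isUnit_of_dvd' d2 dvd_rfl
        exact hunit ⟨(isUnit_pow_iff (by norm_num)).mp u1, (isUnit_pow_iff (by norm_num)).mp u2⟩
  have hdeg : P.natDegree ≤ 12 * k := by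
    refine (natDegree_sub_le _ _).trans (max_le ?_ ?_)
    · refine (natDegree_C_mul_le _ _).trans (natDegree_pow_le.trans ?_)
      rw [hdA]; omega
    · refine (natDegree_C_mul_le _ _).trans (natDegree_pow_le.trans ?_)
      rw [hdB]; omega
  have hsub : s ⊆ P.roots.toFinset := by
    intro t ht
    obtain ⟨u, -, h1, h2⟩ := hs t ht
    rw [Multiset.mem_toFinset, mem_roots hP0, IsRoot.def, hP]
    simp only [eval_sub, eval_mul, eval_pow, eval_C]
    rw [h1, h2]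
    ring
  calc s.card ≤ P.roots.toFinset.card := card_le_card hsub
    _ ≤ P.roots.card := Multiset.toFinset_card_le _
    _ ≤ P.natDegree := card_roots' P
    _ ≤ 12 * k := hdeg

theorem low (A B : ℤ[X]) (k m : ℕ) (f : Fin m → ℤ[X]) (n : Fin m → ℕ)
    (hF : FamB A B k m f n) (hR : Rev A B k m f n) :
    ∃ (c : ℝ) (N0 : ℕ), 0 < c ∧ ∀ N : ℕ, N0 ≤ N → ∀ S : Set (ℤ × ℤ), S.Finite →
      (∀ a b : ℤ, MinS a b → Mem A B a b → Cond a b ≤ N → (a, b) ∈ S) →
      c * (N : ℝ) ^ (2 / ((∑ i, n i : ℕ) : ℝ)) ≤ S.ncard := by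
  classical
  obtain ⟨hk, hA, hB, hlead, hcop, hn, hsq, hdeg, -, -, -⟩ := hF
  obtain ⟨j, N1, G, hN1, hG, hGd⟩ := hR
  obtain ⟨M, K, hM, hK, hbez⟩ := bez2 A B k hk hA hB hlead hcop
  set F : ℤ[X] := ∏ i, f i with hFdef
  set q : ℕ := ∑ i, n i with hq
  have hle : F.natDegree ≤ q :=
    (natDegree_prod_le _ _).trans (Finset.sum_le_sum fun i _ => hn i)
  have hj : 1 ≤ j := by
    rcases Nat.eq_zero_or_pos j with h | h
    · rw [h] at hGd; omega
    · exact h
  have hq1 : 1 ≤ q := by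
    rcases Nat.eq_zero_or_pos q with h | h
    · rw [h] at hGd; omega
    · exact h
  have hF0 : F ≠ 0 := by
    intro h0
    rw [h0] at hsq
    simp at hsq
  obtain ⟨C1, hC1, hsize⟩ := Pool.Agent.W505.VC.t_HOM.2.1 F q
  have hmul := Pool.Agent.W505.VC.t_HOM.1
  have hDd : (4 * A ^ 3 - 27 * B ^ 2 : ℤ[X]).natDegree ≤ 12 * k := by
    refine (natDegree_sub_le _ _).trans (max_le ?_ ?_)
    · have h1 := natDegree_C_mul_le (4 : ℤ) (A ^ 3)
      have h2 : (C (4 : ℤ) : ℤ[X]) = 4 := by simp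
      rw [h2] at h1
      have h3 := (h1.trans natDegree_pow_le)
      omega
    · have h1 := natDegree_C_mul_le (27 : ℤ) (B ^ 2)
      have h2 : (C (27 : ℤ) : ℤ[X]) = 27 := by simp
      rw [h2] at h1
      have h3 := (h1.trans natDegree_pow_le)
      omega
  -- powers of the form
  have hpow : ∀ (i : ℕ) (a b : ℤ), hom (F ^ i) (i * q) a b = (hom F q a b) ^ i := by
    intro i a b
    induction i with
    | zero =>
      rw [pow_zero, pow_zero, Nat.zero_mul, ← C_1, hom_C, pow_zero, mul_one]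
    | succ i ih =>
      rw [pow_succ, Nat.succ_mul, hmul (F ^ i) F (i * q) q (natDegree_pow_le.trans
        (Nat.mul_le_mul_left _ hle)) hle, ih, pow_succ]
  have hD : ∀ a b : ℤ, hom (4 * A ^ 3 - 27 * B ^ 2) (12 * k) a b *
      hom G (j * q - 12 * k) a b = N1 * (hom F q a b) ^ j := by
    intro a b
    rw [← hmul _ G (12 * k) (j * q - 12 * k) hDd (by omega) a b, hG]
    have h1 : 12 * k + (j * q - 12 * k) = 0 + j * q := by omega
    have h2 : ((N1 : ℤ[X])) = C (N1 : ℤ) := by simp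
    rw [h1, h2, hmul (C (N1 : ℤ)) (F ^ j) 0 (j * q) (by simp) (natDegree_pow_le.trans
        (Nat.mul_le_mul_left _ hle)) a b, hpow, hom_C, pow_zero, mul_one]
  have hDAB : ∀ a b : ℤ, b ≠ 0 → hom (4 * A ^ 3 - 27 * B ^ 2) (12 * k) a b =
      4 * (hom A (4 * k) a b) ^ 3 - 27 * (hom B (6 * k) a b) ^ 2 := by
    intro a b hb
    have hden : (b : ℚ) ≠ 0 := by exact_mod_cast hb
    have hAe := hom_eval A (4 * k) hA a b hden
    have hBe := hom_eval B (6 * k) hB a b hden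
    have hDe := hom_eval (4 * A ^ 3 - 27 * B ^ 2) (12 * k) hDd a b hden
    have h4 : ((4 : ℤ[X]).map (Int.castRingHom ℚ)) = Polynomial.C 4 := by
      rw [Polynomial.map_ofNat]; rfl
    have h27 : ((27 : ℤ[X]).map (Int.castRingHom ℚ)) = Polynomial.C 27 := by
      rw [Polynomial.map_ofNat]; rfl
    simp only [Polynomial.map_mul, Polynomial.map_sub, Polynomial.map_pow, eval_mul, eval_sub,
      eval_pow] at hDe
    rw [h4, h27, eval_C, eval_C] at hDe
    have : ((hom (4 * A ^ 3 - 27 * B ^ 2) (12 * k) a b : ℤ) : ℚ) =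
        ((4 * (hom A (4 * k) a b) ^ 3 - 27 * (hom B (6 * k) a b) ^ 2 : ℤ) : ℚ) := by
      push_cast
      rw [hDe, hAe, hBe]
      ring
    exact_mod_cast this
  -- parameters
  set C2 : ℝ := N1 * C1 * M with hC2
  have hN1' : (1 : ℝ) ≤ N1 := by exact_mod_cast Nat.one_le_iff_ne_zero.mpr hN1
  have hM' : (1 : ℝ) ≤ M := by exact_mod_cast hM
  have hC2' : 1 ≤ C2 := by
    have h1 : 1 ≤ (N1 : ℝ) * C1 := one_le_mul_of_one_le_of_one_le hN1' hC1
    exact one_le_mul_of_one_le_of_one_le h1 hM'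
  have hq0 : (0 : ℝ) < q := by exact_mod_cast hq1
  have hkey : ∀ (N H : ℕ), C2 * (H : ℝ) ^ q ≤ N → ∀ S : Set (ℤ × ℤ), S.Finite →
      (∀ a b : ℤ, MinS a b → Mem A B a b → Cond a b ≤ N → (a, b) ∈ S) →
      (H : ℝ) ^ 2 / 4 ≤ 12 * k * S.ncard + q := by
    intro N H hNH S hS hmem
    set P := (cpr H).filter (fun p : ℕ × ℕ => hom F q (p.1 : ℤ) (p.2 : ℤ) ≠ 0) with hP
    -- few pairs are lost
    have hinj : ∀ p ∈ cpr H, ∀ p' ∈ cpr H, ((p.1 : ℤ) : ℚ) / ((p.2 : ℤ) : ℚ) =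
        ((p'.1 : ℤ) : ℚ) / ((p'.2 : ℤ) : ℚ) → p = p' := by
      intro p hp p' hp' heq
      obtain ⟨h1, h2⟩ := mem_filter.mp hp
      obtain ⟨h1', h2'⟩ := mem_filter.mp hp'
      obtain ⟨-, h3⟩ := mem_product.mp h1
      obtain ⟨-, h3'⟩ := mem_product.mp h1'
      have h4 := (mem_Ioc.mp h3).1
      have h4' := (mem_Ioc.mp h3').1
      have g1 := Rat.div_int_inj (a := (p.1 : ℤ)) (b := (p.2 : ℤ)) (c := (p'.1 : ℤ))
        (d := (p'.2 : ℤ)) (by exact_mod_cast h4) (by exact_mod_cast h4')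
        (by simpa using h2) (by simpa using h2') heq
      ext
      · exact_mod_cast g1.1
      · exact_mod_cast g1.2
    have hlost : ((cpr H).filter (fun p : ℕ × ℕ => ¬ hom F q (p.1 : ℤ) (p.2 : ℤ) ≠ 0)).card ≤ q := by
      have hF' : F.map (Int.castRingHom ℚ) ≠ 0 :=
        (Polynomial.map_ne_zero_iff Int.cast_injective).mpr hF0
      calc ((cpr H).filter (fun p : ℕ × ℕ => ¬ hom F q (p.1 : ℤ) (p.2 : ℤ) ≠ 0)).card
          ≤ (F.map (Int.castRingHom ℚ)).roots.toFinset.card := by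
            refine card_le_card_of_injOn (fun p => ((p.1 : ℤ) : ℚ) / ((p.2 : ℤ) : ℚ)) ?_ ?_
            · intro p hp
              obtain ⟨hp1, hp2⟩ := mem_filter.mp hp
              push Not at hp2
              obtain ⟨h1, h2⟩ := mem_filter.mp hp1
              have h4 := (mem_Ioc.mp (mem_product.mp h1).2).1
              have hb : ((p.2 : ℤ) : ℚ) ≠ 0 := by exact_mod_cast (by omega : p.2 ≠ 0)
              have h5 := hom_eval F q hle (p.1 : ℤ) (p.2 : ℤ) hb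
              rw [hp2] at h5
              rw [mem_coe, Multiset.mem_toFinset, mem_roots hF', IsRoot.def]
              have h6 : (((p.2 : ℤ) : ℚ)) ^ q ≠ 0 := pow_ne_zero _ hb
              have h7 : (((p.2 : ℤ) : ℚ)) ^ q * eval (((p.1 : ℤ) : ℚ) / ((p.2 : ℤ) : ℚ))
                  (F.map (Int.castRingHom ℚ)) = 0 := by
                rw [← h5]; simp
              exact (mul_eq_zero.mp h7).resolve_left h6
            · intro p hp p' hp' heq
              exact hinj p (mem_filter.mp hp).1 p' (mem_filter.mp hp').1 heq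
        _ ≤ (F.map (Int.castRingHom ℚ)).roots.card := Multiset.toFinset_card_le _
        _ ≤ (F.map (Int.castRingHom ℚ)).natDegree := card_roots' _
        _ ≤ q := natDegree_map_le.trans hle
    have hPc : (H : ℝ) ^ 2 / 4 ≤ (P.card : ℝ) + q := by
      have h1 := cpr_card H
      have h2 : (cpr H).card = P.card +
          ((cpr H).filter (fun p : ℕ × ℕ => ¬ hom F q (p.1 : ℤ) (p.2 : ℤ) ≠ 0)).card :=
        (card_filter_add_card_filter_not (s := cpr H) _).symm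
      have h3 : ((cpr H).card : ℝ) ≤ (P.card : ℝ) + q := by
        rw [h2]
        push_cast
        have : (((cpr H).filter (fun p : ℕ × ℕ =>
          ¬ hom F q (p.1 : ℤ) (p.2 : ℤ) ≠ 0)).card : ℝ) ≤ q := by exact_mod_cast hlost
        linarith
      linarith
    -- the models
    have hex : ∀ p ∈ P, ∃ x : ℤ × ℤ, x ∈ S ∧ 4 * x.1 ^ 3 - 27 * x.2 ^ 2 ≠ 0 ∧ ∃ v : ℚ, v ≠ 0 ∧
        (A.map (Int.castRingHom ℚ)).eval (((p.1 : ℤ) : ℚ) / ((p.2 : ℤ) : ℚ)) = v ^ 4 * x.1 ∧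
        (B.map (Int.castRingHom ℚ)).eval (((p.1 : ℤ) : ℚ) / ((p.2 : ℤ) : ℚ)) = v ^ 6 * x.2 := by
      intro p hp
      obtain ⟨hp1, hp2⟩ := mem_filter.mp hp
      obtain ⟨h1, h2⟩ := mem_filter.mp hp1
      obtain ⟨h3, h4⟩ := mem_product.mp h1
      have h3' := mem_Ioc.mp h3
      have h4' := mem_Ioc.mp h4
      have hbZ : (p.2 : ℤ) ≠ 0 := by exact_mod_cast (by omega : p.2 ≠ 0)
      have hb : ((p.2 : ℤ) : ℚ) ≠ 0 := by exact_mod_cast hbZ
      have hco : IsCoprime (p.1 : ℤ) (p.2 : ℤ) := Nat.isCoprime_iff_coprime.mpr h2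
      set Ah := hom A (4 * k) (p.1 : ℤ) (p.2 : ℤ) with hAh
      set Bh := hom B (6 * k) (p.1 : ℤ) (p.2 : ℤ) with hBh
      set Fh := hom F q (p.1 : ℤ) (p.2 : ℤ) with hFh
      have hDh := hD (p.1 : ℤ) (p.2 : ℤ)
      rw [hDAB _ _ hbZ] at hDh
      have hne : 4 * Ah ^ 3 - 27 * Bh ^ 2 ≠ 0 := by
        intro h0
        rw [h0, zero_mul] at hDh
        have h5 : (N1 : ℤ) * Fh ^ j ≠ 0 :=
          mul_ne_zero (by exact_mod_cast hN1) (pow_ne_zero _ hp2)
        exact h5 hDh.symm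
      obtain ⟨u, A0, B0, hu1, huM, hA0, hB0, hmin⟩ := min_model Ah Bh M hM hne
        (hbez _ _ hco).1
      have hu0 : (u : ℚ) ≠ 0 := by exact_mod_cast (by omega : u ≠ 0)
      have hAe := hom_eval A (4 * k) hA (p.1 : ℤ) (p.2 : ℤ) hb
      have hBe := hom_eval B (6 * k) hB (p.1 : ℤ) (p.2 : ℤ) hb
      set x : ℚ := ((p.1 : ℤ) : ℚ) / ((p.2 : ℤ) : ℚ) with hx
      set y : ℚ := ((p.2 : ℤ) : ℚ) with hy
      have hyk : y ^ k ≠ 0 := pow_ne_zero _ hb
      have e1 : (A.map (Int.castRingHom ℚ)).eval x = (u / y ^ k) ^ 4 * A0 := by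
        have h5 : (Ah : ℚ) = (u : ℚ) ^ 4 * A0 := by rw [hA0]; push_cast; ring
        rw [← hAh, h5] at hAe
        have h6 : y ^ (4 * k) = (y ^ k) ^ 4 := by rw [← pow_mul]; congr 1; ring
        rw [h6] at hAe
        rw [div_pow]
        field_simp
        linarith
      have e2 : (B.map (Int.castRingHom ℚ)).eval x = (u / y ^ k) ^ 6 * B0 := by
        have h5 : (Bh : ℚ) = (u : ℚ) ^ 6 * B0 := by rw [hB0]; push_cast; ring
        rw [← hBh, h5] at hBe
        have h6 : y ^ (6 * k) = (y ^ k) ^ 6 := by rw [← pow_mul]; congr 1; ring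
        rw [h6] at hBe
        rw [div_pow]
        field_simp
        linarith
      have hv0 : (u / y ^ k : ℚ) ≠ 0 := div_ne_zero hu0 hyk
      refine ⟨(A0, B0), ?_, hmin.1, u / y ^ k, hv0, e1, e2⟩
      refine hmem A0 B0 hmin ⟨x, (u / y ^ k)⁻¹, inv_ne_zero hv0, ?_, ?_⟩ ?_
      · rw [e1, ← mul_assoc, ← mul_pow, inv_mul_cancel₀ hv0, one_pow, one_mul]
      · rw [e2, ← mul_assoc, ← mul_pow, inv_mul_cancel₀ hv0, one_pow, one_mul]
      · have hcd := cond_le A0 B0 M (N1 * Fh.natAbs) (by omega)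
          (mul_ne_zero hN1 (Int.natAbs_ne_zero.mpr hp2)) (by
            intro d hd1 hd2
            refine (hbez _ _ hco).1 d ?_ ?_
            · rw [← hAh, hA0]; exact Dvd.dvd.mul_left hd1 _
            · rw [← hBh, hB0]; exact Dvd.dvd.mul_left hd2 _) (by
            intro l hl hl5 hld
            have hlZ : Prime (l : ℤ) := Nat.prime_iff_prime_int.mp hl
            have h5 : (l : ℤ) ∣ (N1 : ℤ) * Fh ^ j := by
              rw [← hDh]
              refine Dvd.dvd.mul_right ?_ _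
              have h6 : 4 * Ah ^ 3 - 27 * Bh ^ 2 = (u : ℤ) ^ 12 * (4 * A0 ^ 3 - 27 * B0 ^ 2) := by
                rw [hA0, hB0]; ring
              rw [h6]
              exact Dvd.dvd.mul_left hld _
            rcases hlZ.dvd_or_dvd h5 with h6 | h6
            · exact Dvd.dvd.mul_right (by exact_mod_cast h6) _
            · exact Dvd.dvd.mul_left (Int.natCast_dvd.mp (hlZ.dvd_of_dvd_pow h6)) _)
        have h7 : ((Cond A0 B0 : ℕ) : ℝ) ≤ ((N : ℕ) : ℝ) := by
          refine le_trans ?_ hNH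
          have h8 := hsize (p.1 : ℤ) (p.2 : ℤ)
          rw [← hFh] at h8
          have h9 : ((Cond A0 B0 : ℕ) : ℝ) ≤ (N1 : ℝ) * |(Fh : ℝ)| * M := by
            have h10 : ((Fh.natAbs : ℕ) : ℝ) = |(Fh : ℝ)| := by
              rw [Nat.cast_natAbs]; push_cast; rfl
            rw [← h10]
            exact_mod_cast hcd
          have h11 : max |(((p.1 : ℕ) : ℤ) : ℝ)| |(((p.2 : ℕ) : ℤ) : ℝ)| ≤ H := by
            have a1 : (p.1 : ℝ) ≤ H := by exact_mod_cast h3'.2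
            have a2 : (p.2 : ℝ) ≤ H := by exact_mod_cast h4'.2
            refine max_le ?_ ?_
            · push_cast
              rw [abs_of_nonneg (Nat.cast_nonneg _)]
              exact a1
            · push_cast
              rw [abs_of_nonneg (Nat.cast_nonneg _)]
              exact a2
          have h12 : (max |(((p.1 : ℕ) : ℤ) : ℝ)| |(((p.2 : ℕ) : ℤ) : ℝ)|) ^ q ≤ (H : ℝ) ^ q :=
            pow_le_pow_left₀ (le_max_of_le_left (abs_nonneg _)) h11 q
          calc ((Cond A0 B0 : ℕ) : ℝ) ≤ (N1 : ℝ) * |(Fh : ℝ)| * M := h9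
            _ ≤ (N1 : ℝ) * (C1 * (H : ℝ) ^ q) * M := by
                gcongr
                exact h8.trans (mul_le_mul_of_nonneg_left h12 (by linarith))
            _ = C2 * (H : ℝ) ^ q := by rw [hC2]; ring
        exact_mod_cast h7
    choose! φ hφS hφD v hv hφA hφB using hex
    have hfib : P.card ≤ (12 * k) * (P.image φ).card := by
      refine card_le_mul_card_image P (12 * k) fun x hx => ?_
      obtain ⟨p0, hp0, rfl⟩ := mem_image.mp hx
      have h1 : (P.filter (fun p => φ p = φ p0)).card =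
          ((P.filter (fun p => φ p = φ p0)).image
            (fun p : ℕ × ℕ => ((p.1 : ℤ) : ℚ) / ((p.2 : ℤ) : ℚ))).card := by
        rw [card_image_of_injOn]
        intro p hp p' hp' heq
        exact hinj p (mem_filter.mp (mem_filter.mp hp).1).1 p'
          (mem_filter.mp (mem_filter.mp hp').1).1 heq
      rw [h1]
      refine fibre A B k hk hA hB hlead hcop (φ p0).1 (φ p0).2 (hφD p0 hp0) _ ?_
      intro t ht
      obtain ⟨p, hp, rfl⟩ := mem_image.mp ht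
      obtain ⟨hp1, hp2⟩ := mem_filter.mp hp
      refine ⟨v p, hv p hp1, ?_, ?_⟩
      · rw [hφA p hp1, hp2]
      · rw [hφB p hp1, hp2]
    have himg : (P.image φ).card ≤ S.ncard := by
      rw [Set.ncard_eq_toFinset_card _ hS]
      refine card_le_card fun x hx => ?_
      obtain ⟨p, hp, rfl⟩ := mem_image.mp hx
      rw [Set.Finite.mem_toFinset]
      exact hφS p hp
    have h5 : (P.card : ℝ) ≤ 12 * k * S.ncard := by
      have : P.card ≤ 12 * k * S.ncard := hfib.trans (Nat.mul_le_mul_left _ himg)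
      exact_mod_cast this
    linarith
  -- the choice of `H`
  have hk0 : (0 : ℝ) < k := by exact_mod_cast hk
  refine ⟨C2 ^ (-(2 / (q : ℝ))) / (384 * k), ⌈C2 * (32 * q) ^ q⌉₊, by positivity, ?_⟩
  intro N hN S hS hmem
  have hC20 : 0 < C2 := by linarith
  have hN' : C2 * (32 * (q : ℝ)) ^ q ≤ N := Nat.ceil_le.mp hN
  have hq1' : (1 : ℝ) ≤ q := by exact_mod_cast hq1
  set y : ℝ := ((N : ℝ) / C2) ^ (1 / (q : ℝ)) with hy
  have hy0 : 0 ≤ y := by positivity
  have hyq : y ^ q = N / C2 := by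
    rw [hy, ← Real.rpow_natCast, ← Real.rpow_mul (by positivity), one_div_mul_cancel hq0.ne',
      Real.rpow_one]
  have hy32 : 32 * (q : ℝ) ≤ y := by
    refine le_of_pow_le_pow_left₀ (n := q) (by omega) hy0 ?_
    rw [hyq, le_div_iff₀ hC20]
    linarith
  have hfl : (⌊y⌋₊ : ℝ) ≤ y := Nat.floor_le hy0
  have hfl2 : y - 1 ≤ (⌊y⌋₊ : ℝ) := (Nat.sub_one_lt_floor y).le
  have h := hkey N ⌊y⌋₊ (by
    calc C2 * ((⌊y⌋₊ : ℕ) : ℝ) ^ q ≤ C2 * y ^ q := by gcongr
      _ = N := by rw [hyq]; field_simp) S hS hmem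
  have hy2 : y ^ 2 = C2 ^ (-(2 / (q : ℝ))) * (N : ℝ) ^ (2 / (q : ℝ)) := by
    rw [hy, ← Real.rpow_natCast, ← Real.rpow_mul (by positivity),
      Real.div_rpow (Nat.cast_nonneg _) hC20.le, Real.rpow_neg hC20.le]
    have : 1 / (q : ℝ) * ((2 : ℕ) : ℝ) = 2 / q := by push_cast; ring
    rw [this]
    field_simp
  have h8 : y / 2 ≤ (⌊y⌋₊ : ℝ) := by linarith
  have h9 : (y / 2) ^ 2 ≤ (⌊y⌋₊ : ℝ) ^ 2 := pow_le_pow_left₀ (by positivity) h8 2
  have h10 : y ^ 2 / 32 ≤ 12 * k * S.ncard := by nlinarith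
  have h11 : C2 ^ (-(2 / (q : ℝ))) / (384 * k) * (N : ℝ) ^ (2 / (q : ℝ)) = y ^ 2 / (384 * k) := by
    rw [hy2]; ring
  rw [h11, div_le_iff₀ (by positivity)]
  linarith

end Pool.Agent.TH498.HF
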