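import Pool.Agent.TH876.Main

/-!
# Points of the projective line over a number field with few ramified primes, of any height
-/

set_option autoImplicit false

namespace Pool.Agent.TH498.HF

open NumberField IsDedekindDomain Finset Pool.Agent.H691R3 Pool.Agent.TH876.Loc

variable {K : Type} [Field K] [NumberField K]

/-- the determinant of two points -/
def wd (p r : K × K) : K := p.1 * r.2 - p.2 * r.1

theorem fv_wd (v : Pr K) {p r : K × K} (hp : p ≠ 0) (hr : r ≠ 0) (h : wd p r ≠ 0)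
    (h0 : lamA (fv v) p r = 0) :
    fv v (wd p r) = max (fv v p.1) (fv v p.2) * max (fv v r.1) (fv v r.2) := by
  have hmp : 0 < max (fv v p.1) (fv v p.2) := by
    by_contra hcon
    push Not at hcon
    have h1 : fv v p.1 ≤ 0 := (le_max_left _ _).trans hcon
    have h2 : fv v p.2 ≤ 0 := (le_max_right _ _).trans hcon
    apply hp
    refine Prod.ext ?_ ?_
    · exact (fv v).eq_zero.1 (le_antisymm h1 ((fv v).nonneg _))
    · exact (fv v).eq_zero.1 (le_antisymm h2 ((fv v).nonneg _))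
  have hmr : 0 < max (fv v r.1) (fv v r.2) := by
    by_contra hcon
    push Not at hcon
    have h1 : fv v r.1 ≤ 0 := (le_max_left _ _).trans hcon
    have h2 : fv v r.2 ≤ 0 := (le_max_right _ _).trans hcon
    apply hr
    refine Prod.ext ?_ ?_
    · exact (fv v).eq_zero.1 (le_antisymm h1 ((fv v).nonneg _))
    · exact (fv v).eq_zero.1 (le_antisymm h2 ((fv v).nonneg _))
  have hw : 0 < fv v (wd p r) := (fv v).pos h
  unfold lamA at h0
  have h3 := Real.eq_one_of_pos_of_log_eq_zero (by positivity) h0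
  change _ / fv v (wd p r) = 1 at h3
  rw [div_eq_one_iff_eq hw.ne'] at h3
  exact h3.symm

/-- the three terms of Pluecker's relation -/
def tr (x a b c : K × K) : K := wd x a * wd b c

omit [NumberField K] in
theorem plucker (x a b c : K × K) : tr x a b c + tr x b c a + tr x c a b = 0 := by
  unfold tr wd; ring

/-- the coordinate of `x` for the three points `a, b, c` -/
noncomputable def zz (x a b c : K × K) : K := tr x a b c / tr x c a b

omit [NumberField K] in
theorem zz_add_one {x a b c : K × K} (hc : tr x c a b ≠ 0) :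
    zz x a b c + 1 = - (tr x b c a / tr x c a b) := by
  unfold zz
  have h := plucker x a b c
  field_simp
  linear_combination h

open Classical in
/-- the primes where `x` is close to `a` -/
noncomputable def Sx (x a : K × K) : Finset (Pr K) :=
  if h : {v : Pr K | lamA (fv v) x a ≠ 0}.Finite then h.toFinset else ∅

theorem mem_Sx {x a : K × K} (hx : x ≠ 0) (ha : a ≠ 0) (h : wd x a ≠ 0) (v : Pr K) :
    v ∈ Sx x a ↔ lamA (fv v) x a ≠ 0 := by
  unfold Sx
  rw [dif_pos (lamF_support_finite hx ha h), Set.Finite.mem_toFinset, Set.mem_ofPred_eq]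

theorem zz_unit {x a b c : K × K} (hx : x ≠ 0) (ha : a ≠ 0) (hb : b ≠ 0) (hc : c ≠ 0)
    (hxa : wd x a ≠ 0) (hxb : wd x b ≠ 0) (hxc : wd x c ≠ 0) (hab : wd a b ≠ 0)
    (hbc : wd b c ≠ 0) (hca : wd c a ≠ 0) (v : Pr K)
    (h1 : lamA (fv v) x a = 0) (h2 : lamA (fv v) x b = 0) (h3 : lamA (fv v) x c = 0)
    (h4 : lamA (fv v) a b = 0) (h5 : lamA (fv v) b c = 0) (h6 : lamA (fv v) c a = 0) :
    fv v (zz x a b c) = 1 ∧ fv v (zz x a b c + 1) = 1 := by
  have e1 := fv_wd v hx ha hxa h1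
  have e2 := fv_wd v hx hb hxb h2
  have e3 := fv_wd v hx hc hxc h3
  have e4 := fv_wd v ha hb hab h4
  have e5 := fv_wd v hb hc hbc h5
  have e6 := fv_wd v hc ha hca h6
  have ha' : 0 < fv v (wd x a) := (fv v).pos hxa
  have hb' : 0 < fv v (wd x b) := (fv v).pos hxb
  have hc' : 0 < fv v (wd x c) := (fv v).pos hxc
  have hab' : 0 < fv v (wd a b) := (fv v).pos hab
  have hbc' : 0 < fv v (wd b c) := (fv v).pos hbc
  have hca' : 0 < fv v (wd c a) := (fv v).pos hca
  have htc : tr x c a b ≠ 0 := mul_ne_zero hxc hab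
  have q1 : fv v (tr x a b c) = fv v (tr x c a b) := by
    unfold tr
    rw [(fv v).map_mul, (fv v).map_mul, e1, e3, e4, e5]
    ring
  have q2 : fv v (tr x b c a) = fv v (tr x c a b) := by
    unfold tr
    rw [(fv v).map_mul, (fv v).map_mul, e2, e3, e4, e6]
    ring
  have q3 : fv v (tr x c a b) ≠ 0 := ((fv v).pos htc).ne'
  constructor
  · unfold zz
    rw [map_div₀, q1, div_self q3]
  · rw [zz_add_one htc, (fv v).map_neg, map_div₀, q2, div_self q3]

omit [NumberField K] in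
theorem zz_pt {x a b c : K × K}
    (hxa : wd x a ≠ 0) (hxb : wd x b ≠ 0) (hxc : wd x c ≠ 0) (hab : wd a b ≠ 0)
    (hbc : wd b c ≠ 0) (hca : wd c a ≠ 0) : Pt (zz x a b c) := by
  have htc : tr x c a b ≠ 0 := mul_ne_zero hxc hab
  refine ⟨div_ne_zero (mul_ne_zero hxa hbc) htc, ?_⟩
  rw [zz_add_one htc]
  exact neg_ne_zero.2 (div_ne_zero (mul_ne_zero hxb hca) htc)

theorem zz_sp [DecidableEq (Pr K)] {x a b c : K × K} (hx : x ≠ 0) (ha : a ≠ 0) (hb : b ≠ 0)
    (hc : c ≠ 0) (hxa : wd x a ≠ 0) (hxb : wd x b ≠ 0) (hxc : wd x c ≠ 0) (hab : wd a b ≠ 0)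
    (hbc : wd b c ≠ 0) (hca : wd c a ≠ 0) :
    sp (zz x a b c) ⊆ (Sx a b ∪ (Sx b c ∪ Sx c a)) ∪ (Sx x a ∪ (Sx x b ∪ Sx x c)) := by
  intro v hv
  by_contra hcon
  simp only [Finset.mem_union, not_or, mem_Sx ha hb hab, mem_Sx hb hc hbc, mem_Sx hc ha hca,
    mem_Sx hx ha hxa, mem_Sx hx hb hxb, mem_Sx hx hc hxc, not_not] at hcon
  obtain ⟨⟨h4, h5, h6⟩, h1, h2, h3⟩ := hcon
  exact (mem_sp (zz_pt hxa hxb hxc hab hbc hca) v).1 hv
    (zz_unit hx ha hb hc hxa hxb hxc hab hbc hca v h1 h2 h3 h4 h5 h6)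

omit [NumberField K] in
/-- `x` is determined by its coordinate -/
theorem zz_inj {x y : K} {a b c : K × K} (hxc : wd (aff x) c ≠ 0) (hyc : wd (aff y) c ≠ 0)
    (hab : wd a b ≠ 0) (hbc : wd b c ≠ 0) (hca : wd c a ≠ 0)
    (h : zz (aff x) a b c = zz (aff y) a b c) : x = y := by
  unfold zz at h
  have h1 : tr (aff x) c a b ≠ 0 := mul_ne_zero hxc hab
  have h2 : tr (aff y) c a b ≠ 0 := mul_ne_zero hyc hab
  rw [div_eq_div_iff h1 h2] at h
  have h3 : (x - y) * (wd b c * wd a b * wd c a) = 0 := by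
    unfold tr wd aff at h
    unfold wd
    simp only at h
    linear_combination (-1 : K) * h
  rcases mul_eq_zero.1 h3 with h4 | h4
  · exact sub_eq_zero.1 h4
  · exact absurd h4 (mul_ne_zero (mul_ne_zero hbc hab) hca)

theorem nn_union_le [DecidableEq (Pr K)] (s t : Finset (Pr K)) : nn (s ∪ t) ≤ nn s * nn t := by
  have h : s ∪ t = s ∪ (t \ s) := by
    rw [Finset.union_sdiff_self_eq_union]
  rw [h, nn_union Finset.disjoint_sdiff]
  exact mul_le_mul_of_nonneg_left (nn_mono Finset.sdiff_subset) (nn_pos s).le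

end Pool.Agent.TH498.HF
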