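import Pool.Agent.TH498.HF.P1

/-!
# Points of the projective line over a number field by their truncated counting function
-/

set_option autoImplicit false

namespace Pool.Agent.TH498.HF

open NumberField IsDedekindDomain Finset Pool.Agent.H691R3 Pool.Agent.TH876.Loc

variable {K : Type} [Field K] [NumberField K]

/-- the degree times the truncated counting function -/
noncomputable def NT (T : Set (Pr K)) {q : ℕ} (α : Fin q → K × K) (x : K) : ℝ :=
  ∑ᶠ (v : Pr K) (_ : v ∉ T), ∑ l : Fin q,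
    min (lamA (fv v) (aff x) (α l)) (Real.log (Nv v))

theorem min_term {x a : K × K} (hx : x ≠ 0) (ha : a ≠ 0) (h : wd x a ≠ 0) (v : Pr K)
    [Decidable (v ∈ Sx x a)] :
    min (lamA (fv v) x a) (Real.log (Nv v)) = if v ∈ Sx x a then Real.log (Nv v) else 0 := by
  have hl := log_Nv_pos v
  split_ifs with hv
  · rw [mem_Sx hx ha h] at hv
    obtain ⟨m, hm⟩ := lamF_discrete v hx ha h
    rw [min_eq_right]
    rw [hm] at hv ⊢
    have hm0 : m ≠ 0 := by
      rintro rfl
      simp at hv
    have hm1 : (1 : ℝ) ≤ m := by exact_mod_cast Nat.one_le_iff_ne_zero.2 hm0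
    nlinarith
  · rw [mem_Sx hx ha h, not_not] at hv
    rw [hv, min_eq_left hl.le]

theorem NT_eq [DecidableEq (Pr K)] (T : Finset (Pr K)) {q : ℕ} (α : Fin q → K × K)
    (hα0 : ∀ l, α l ≠ 0) (x : K) (hx : ∀ l, wd (aff x) (α l) ≠ 0) :
    NT (T : Set (Pr K)) α x = ∑ l, ∑ v ∈ Sx (aff x) (α l) \ T, Real.log (Nv v) := by
  classical
  unfold NT
  have e1 : ∀ v : Pr K, (∑ᶠ (_ : v ∉ (T : Set (Pr K))), ∑ l : Fin q,
      min (lamA (fv v) (aff x) (α l)) (Real.log (Nv v))) =
      ∑ l : Fin q, if v ∈ Sx (aff x) (α l) \ T then Real.log (Nv v) else 0 := by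
    intro v
    rw [finsum_eq_if]
    by_cases hv : v ∈ T
    · rw [if_neg (by rw [Finset.mem_coe]; exact fun h => h hv)]
      symm
      refine Finset.sum_eq_zero fun l _ => ?_
      rw [if_neg]
      rw [Finset.mem_sdiff]
      exact fun h => h.2 hv
    · rw [if_pos (by rw [Finset.mem_coe]; exact hv)]
      refine Finset.sum_congr rfl fun l _ => ?_
      rw [min_term (aff_ne_zero x) (hα0 l) (hx l) v]
      simp only [Finset.mem_sdiff, hv, not_false_eq_true, and_true]
  rw [finsum_congr e1]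
  rw [finsum_eq_sum_of_support_subset (s := Finset.univ.biUnion fun l => Sx (aff x) (α l) \ T)]
  · rw [Finset.sum_comm]
    refine Finset.sum_congr rfl fun l _ => ?_
    rw [← Finset.sum_filter]
    refine Finset.sum_congr ?_ fun _ _ => rfl
    ext v
    simp only [Finset.mem_filter, Finset.mem_biUnion, Finset.mem_univ, true_and]
    exact ⟨fun h => h.2, fun h => ⟨⟨l, h⟩, h⟩⟩
  · intro v hv
    rw [Function.mem_support] at hv
    by_contra hcon
    apply hv
    refine Finset.sum_eq_zero fun l _ => ?_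
    rw [if_neg]
    intro h
    apply hcon
    rw [Finset.mem_coe, Finset.mem_biUnion]
    exact ⟨l, Finset.mem_univ _, h⟩

theorem log_nn (s : Finset (Pr K)) : Real.log (nn s) = ∑ v ∈ s, Real.log (Nv v) := by
  unfold nn
  exact Real.log_prod fun v _ => (Nv_pos v).ne'

/-- three consecutive indices -/
theorem cyc {q : ℕ} (hq : 3 ≤ q) (f : Fin q → ℝ) : ∃ a b c : Fin q, a ≠ b ∧ b ≠ c ∧ c ≠ a ∧
    f a + f b + f c ≤ 3 * (∑ l, f l) / q := by
  have hne : NeZero q := ⟨by omega⟩
  have h1 : ∑ l, (f l + f (l + 1) + f (l + 2)) = 3 * ∑ l, f l := by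
    rw [Finset.sum_add_distrib, Finset.sum_add_distrib]
    have e1 : ∑ l, f (l + 1) = ∑ l, f l := Equiv.sum_comp (Equiv.addRight 1) f
    have e2 : ∑ l, f (l + 2) = ∑ l, f l := Equiv.sum_comp (Equiv.addRight 2) f
    rw [e1, e2]; ring
  obtain ⟨l, -, hl⟩ := Finset.exists_le_of_sum_le (s := (Finset.univ : Finset (Fin q)))
    (f := fun l => f l + f (l + 1) + f (l + 2)) (g := fun _ => 3 * (∑ l, f l) / q)
    ⟨0, Finset.mem_univ _⟩ (by
      rw [h1, Finset.sum_const, Finset.card_univ, Fintype.card_fin, nsmul_eq_mul]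
      have : (q : ℝ) ≠ 0 := by exact_mod_cast (by omega : q ≠ 0)
      field_simp
      exact le_rfl)
  refine ⟨l, l + 1, l + 2, ?_, ?_, ?_, hl⟩
  · intro h
    have h2 : (1 : Fin q) = 0 := by
      have := h.symm
      exact add_eq_left.1 this
    have h3 := congrArg Fin.val h2
    rw [Fin.val_one', Fin.val_zero, Nat.mod_eq_of_lt (by omega)] at h3
    omega
  · intro h
    have h2 : (1 : Fin q) = 2 := add_left_cancel h
    have h3 := congrArg Fin.val h2
    have h4 : (2 : Fin q).val = 2 % q := rfl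
    rw [Fin.val_one', Nat.mod_eq_of_lt (by omega), h4] at h3
    rcases Nat.lt_or_ge 2 q with h5 | h5
    · rw [Nat.mod_eq_of_lt h5] at h3
      omega
    · omega
  · intro h
    have h2 : (2 : Fin q) = 0 := add_eq_left.1 h
    have h3 := congrArg Fin.val h2
    have h4 : (2 : Fin q).val = 2 % q := rfl
    rw [Fin.val_zero, h4, Nat.mod_eq_of_lt (by omega)] at h3
    omega

end Pool.Agent.TH498.HF
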