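import Pool.Agent.TH498.HF.P2

/-!
# Counting points of any height by their truncated counting function
-/

set_option autoImplicit false

namespace Pool.Agent.TH498.HF

open NumberField IsDedekindDomain Finset Pool.Agent.H691R3 Pool.Agent.TH876.Loc

variable {K : Type} [Field K] [NumberField K]

theorem nn_le_exp [DecidableEq (Pr K)] (s T : Finset (Pr K)) :
    nn s ≤ nn T * Real.exp (∑ v ∈ s \ T, Real.log (Nv v)) := by
  rw [← log_nn, Real.exp_log (nn_pos _)]
  have h : s ⊆ T ∪ (s \ T) := by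
    rw [Finset.union_sdiff_self_eq_union]
    exact Finset.subset_union_right
  exact (nn_mono h).trans (nn_union_le _ _)

theorem triple_bound [DecidableEq (Pr K)] (T : Finset (Pr K)) {x a b c : K × K} (hx : x ≠ 0)
    (ha : a ≠ 0) (hb : b ≠ 0) (hc : c ≠ 0) (hxa : wd x a ≠ 0) (hxb : wd x b ≠ 0)
    (hxc : wd x c ≠ 0) (hab : wd a b ≠ 0) (hbc : wd b c ≠ 0) (hca : wd c a ≠ 0) :
    nn (sp (zz x a b c)) ≤ nn (Sx a b ∪ (Sx b c ∪ Sx c a)) * nn T ^ 3 *
      Real.exp (∑ v ∈ Sx x a \ T, Real.log (Nv v) + ∑ v ∈ Sx x b \ T, Real.log (Nv v) +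
        ∑ v ∈ Sx x c \ T, Real.log (Nv v)) := by
  have h1 := nn_mono (zz_sp hx ha hb hc hxa hxb hxc hab hbc hca)
  have h2 := nn_union_le (Sx a b ∪ (Sx b c ∪ Sx c a)) (Sx x a ∪ (Sx x b ∪ Sx x c))
  have h3 : nn (Sx x a ∪ (Sx x b ∪ Sx x c)) ≤ nn (Sx x a) * (nn (Sx x b) * nn (Sx x c)) :=
    (nn_union_le _ _).trans (mul_le_mul_of_nonneg_left (nn_union_le _ _) (nn_pos _).le)
  have h4 := nn_le_exp (Sx x a) T
  have h5 := nn_le_exp (Sx x b) T
  have h6 := nn_le_exp (Sx x c) T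
  have p1 := nn_pos (Sx x a)
  have p2 := nn_pos (Sx x b)
  have p3 := nn_pos (Sx x c)
  have pT := nn_pos T
  have h7 : nn (Sx x a) * (nn (Sx x b) * nn (Sx x c)) ≤
      (nn T * Real.exp (∑ v ∈ Sx x a \ T, Real.log (Nv v))) *
      ((nn T * Real.exp (∑ v ∈ Sx x b \ T, Real.log (Nv v))) *
        (nn T * Real.exp (∑ v ∈ Sx x c \ T, Real.log (Nv v)))) := by
    refine mul_le_mul h4 (mul_le_mul h5 h6 p3.le (by positivity)) (by positivity) (by positivity)
  refine h1.trans (h2.trans ?_)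
  rw [mul_assoc]
  refine mul_le_mul_of_nonneg_left (h3.trans (h7.trans (le_of_eq ?_))) (nn_pos _).le
  rw [Real.exp_add, Real.exp_add]
  ring

theorem log_facts2 {B e R : ℝ} (hB : 16 ≤ B) (he : 0 < e) (hR : 16 ≤ R) :
    (B * R ^ e) / Real.log (B * R ^ e) ≤ B / e * (R ^ e / Real.log R) ∧
    0 ≤ Real.log (Real.log (B * R ^ e)) ∧
    Real.log (Real.log (B * R ^ e)) ≤
      (1 + |Real.log (Real.log B + e)|) * Real.log (Real.log R) := by
  have hR0 : 0 < R := by linarith
  have hRe : 1 ≤ R ^ e := Real.one_le_rpow (by linarith) he.le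
  have hRe0 : 0 < R ^ e := by linarith
  have hB0 : 0 < B := by linarith
  have hL := log_facts hR
  have he1 := Real.exp_one_gt_d9
  have hL0 : 0 < Real.log R := by linarith
  have hL1 : 1 ≤ Real.log R := by linarith
  have hLL : 1 ≤ Real.log (Real.log R) := by
    rw [Real.le_log_iff_exp_le hL0]
    exact hL
  have hB1 : Real.exp 1 ≤ Real.log B := log_facts hB
  have hB2 : 0 < Real.log B := by linarith
  have e1 : Real.log (B * R ^ e) = Real.log B + e * Real.log R := by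
    rw [Real.log_mul hB0.ne' hRe0.ne', Real.log_rpow hR0]
  have heL : 0 < e * Real.log R := mul_pos he hL0
  refine ⟨?_, ?_, ?_⟩
  · rw [e1, div_mul_div_comm]
    refine div_le_div_of_nonneg_left (by positivity) heL (by linarith)
  · refine Real.log_nonneg ?_
    rw [e1]
    linarith
  · have h1 : Real.log B + e * Real.log R ≤ (Real.log B + e) * Real.log R := by
      nlinarith
    rw [e1]
    refine (Real.log_le_log (by linarith) h1).trans ?_
    rw [Real.log_mul (by linarith) hL0.ne']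
    have h2 := le_abs_self (Real.log (Real.log B + e))
    have h3 := abs_nonneg (Real.log (Real.log B + e))
    nlinarith

theorem count_pts (n q : ℕ) (hn : 1 ≤ n) (hq : 3 ≤ q) : ∃ k : ℕ,
    ∀ (K : Type) [Field K] [NumberField K], Module.finrank ℚ K = n →
    ∀ (T : Finset (Pr K)) (α : Fin q → K × K), (∀ l, α l ≠ 0) →
    (∀ i j, i ≠ j → wd (α i) (α j) ≠ 0) →
    ∃ C : ℝ, 0 < C ∧ ∀ R : ℝ, 16 ≤ R → ∀ E : Finset K,
      (∀ x ∈ E, (∀ l, wd (aff x) (α l) ≠ 0) ∧ NT (T : Set (Pr K)) α x ≤ n * Real.log R) →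
      (E.card : ℝ) ≤ C * R ^ (3 * (n : ℝ) / q) * Real.log (Real.log R) ^ k / Real.log R := by
  obtain ⟨c, k, hc, hmain⟩ := count_all n
  refine ⟨k, ?_⟩
  intro K _ _ hK T α hα0 hα
  classical
  set B : ℝ := 16 + ∑ t : Fin q × Fin q × Fin q,
    nn (Sx (α t.1) (α t.2.1) ∪ (Sx (α t.2.1) (α t.2.2) ∪ Sx (α t.2.2) (α t.1))) * nn T ^ 3 with hB
  have hpos : ∀ t : Fin q × Fin q × Fin q, 0 ≤
      nn (Sx (α t.1) (α t.2.1) ∪ (Sx (α t.2.1) (α t.2.2) ∪ Sx (α t.2.2) (α t.1))) * nn T ^ 3 :=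
    fun t => mul_nonneg (nn_pos _).le (pow_nonneg (nn_pos _).le _)
  have hB16 : 16 ≤ B := by
    have := Finset.sum_nonneg (s := Finset.univ) fun t _ => hpos t
    linarith
  have hBt : ∀ t : Fin q × Fin q × Fin q,
      nn (Sx (α t.1) (α t.2.1) ∪ (Sx (α t.2.1) (α t.2.2) ∪ Sx (α t.2.2) (α t.1))) * nn T ^ 3 ≤
        B := by
    intro t
    have := Finset.single_le_sum (s := Finset.univ) (fun t _ => hpos t) (Finset.mem_univ t)
    linarith
  have hq0 : (0 : ℝ) < q := by exact_mod_cast (by omega : 0 < q)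
  set e : ℝ := 3 * (n : ℝ) / q with he
  have he0 : 0 < e := by
    have : (0 : ℝ) < n := by exact_mod_cast hn
    positivity
  set G : ℝ := 1 + |Real.log (Real.log B + e)| with hG
  have hG1 : 1 ≤ G := by
    have := abs_nonneg (Real.log (Real.log B + e))
    linarith
  refine ⟨(Fintype.card (Fin q × Fin q × Fin q) : ℝ) * (c * (B / e) * G ^ k) + 1, by positivity, ?_⟩
  intro R hR E hE
  have hR0 : 0 < R := by linarith
  have hRe : 1 ≤ R ^ e := Real.one_le_rpow (by linarith) he0.le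
  obtain ⟨g1, g2, g3⟩ := log_facts2 hB16 he0 hR
  have hex : ∀ x : K, ∃ t : Fin q × Fin q × Fin q, x ∈ E → t.1 ≠ t.2.1 ∧ t.2.1 ≠ t.2.2 ∧
      t.2.2 ≠ t.1 ∧ nn (sp (zz (aff x) (α t.1) (α t.2.1) (α t.2.2))) ≤ B * R ^ e := by
    intro x
    by_cases hx : x ∈ E
    swap
    · exact ⟨(⟨0, by omega⟩, ⟨0, by omega⟩, ⟨0, by omega⟩), fun h => absurd h hx⟩
    obtain ⟨hx1, hx2⟩ := hE x hx
    rw [NT_eq T α hα0 x hx1] at hx2
    obtain ⟨a, b, c', hab, hbc, hca, h⟩ := cyc hq
      (fun l => ∑ v ∈ Sx (aff x) (α l) \ T, Real.log (Nv v))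
    refine ⟨(a, b, c'), fun _ => ⟨hab, hbc, hca, ?_⟩⟩
    refine (triple_bound T (aff_ne_zero x) (hα0 a) (hα0 b) (hα0 c') (hx1 a) (hx1 b) (hx1 c')
      (hα _ _ hab) (hα _ _ hbc) (hα _ _ hca)).trans ?_
    refine mul_le_mul (hBt (a, b, c')) ?_ (Real.exp_pos _).le (by linarith)
    rw [Real.rpow_def_of_pos hR0]
    refine Real.exp_le_exp.2 (h.trans ?_)
    rw [he, div_le_iff₀ hq0]
    have : Real.log R * (3 * (n : ℝ) / q) * q = 3 * (n * Real.log R) := by
      field_simp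
    rw [this]
    linarith
  choose τ hτ using hex
  have hcard : (E.card : ℝ) = ∑ t : Fin q × Fin q × Fin q, ((E.filter fun x => τ x = t).card : ℝ) := by
    exact_mod_cast Finset.card_eq_sum_card_fiberwise (f := τ) (t := Finset.univ)
      (fun x _ => Finset.mem_coe.2 (Finset.mem_univ _))
  have hL := log_facts hR
  have he1 := Real.exp_one_gt_d9
  have hL0 : 0 < Real.log R := by linarith
  have hLL : 1 ≤ Real.log (Real.log R) := by
    rw [Real.le_log_iff_exp_le hL0]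
    exact hL
  have hfib : ∀ t : Fin q × Fin q × Fin q, ((E.filter fun x => τ x = t).card : ℝ) ≤
      c * (B / e) * G ^ k * (R ^ e * Real.log (Real.log R) ^ k / Real.log R) := by
    intro t
    by_cases ht : (E.filter fun x => τ x = t).Nonempty
    swap
    · rw [Finset.not_nonempty_iff_eq_empty] at ht
      rw [ht, Finset.card_empty, Nat.cast_zero]
      positivity
    obtain ⟨x0, hx0⟩ := ht
    obtain ⟨hx0E, hx0t⟩ := Finset.mem_filter.1 hx0
    obtain ⟨t1, t2, t3, -⟩ := hτ x0 hx0E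
    rw [hx0t] at t1 t2 t3
    set E' := (E.filter fun x => τ x = t).image
      (fun x => zz (aff x) (α t.1) (α t.2.1) (α t.2.2)) with hE'
    have hinj : E'.card = (E.filter fun x => τ x = t).card := by
      refine Finset.card_image_of_injOn ?_
      intro x hx y hy hxy
      rw [Finset.mem_coe, Finset.mem_filter] at hx hy
      exact zz_inj ((hE x hx.1).1 _) ((hE y hy.1).1 _) (hα _ _ t1) (hα _ _ t2) (hα _ _ t3) hxy
    rw [← hinj]
    have h1 := hmain K hK (B * R ^ e) (by nlinarith) E' (by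
      intro z hz
      rw [hE', Finset.mem_image] at hz
      obtain ⟨x, hx, rfl⟩ := hz
      obtain ⟨hxE, hxt⟩ := Finset.mem_filter.1 hx
      obtain ⟨-, -, -, h4⟩ := hτ x hxE
      rw [hxt] at h4
      exact ⟨zz_pt ((hE x hxE).1 _) ((hE x hxE).1 _) ((hE x hxE).1 _) (hα _ _ t1) (hα _ _ t2)
        (hα _ _ t3), h4⟩)
    refine h1.trans ?_
    have h2 : Real.log (Real.log (B * R ^ e)) ^ k ≤ G ^ k * Real.log (Real.log R) ^ k := by
      rw [← mul_pow]
      exact pow_le_pow_left₀ g2 g3 k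
    calc c * (B * R ^ e) / Real.log (B * R ^ e) * Real.log (Real.log (B * R ^ e)) ^ k
        = c * ((B * R ^ e) / Real.log (B * R ^ e)) * Real.log (Real.log (B * R ^ e)) ^ k := by ring
      _ ≤ c * (B / e * (R ^ e / Real.log R)) * (G ^ k * Real.log (Real.log R) ^ k) := by
        refine mul_le_mul (mul_le_mul_of_nonneg_left g1 hc.le) h2 (pow_nonneg g2 _) ?_
        positivity
      _ = _ := by ring
  rw [hcard]
  refine (Finset.sum_le_sum fun t _ => hfib t).trans ?_
  rw [Finset.sum_const, Finset.card_univ, nsmul_eq_mul]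
  have hpos2 : 0 ≤ R ^ e * Real.log (Real.log R) ^ k / Real.log R := by positivity
  calc _ = (Fintype.card (Fin q × Fin q × Fin q) : ℝ) * (c * (B / e) * G ^ k) *
        (R ^ e * Real.log (Real.log R) ^ k / Real.log R) := by ring
    _ ≤ ((Fintype.card (Fin q × Fin q × Fin q) : ℝ) * (c * (B / e) * G ^ k) + 1) *
        (R ^ e * Real.log (Real.log R) ^ k / Real.log R) :=
      mul_le_mul_of_nonneg_right (by linarith) hpos2
    _ = _ := by ring

end Pool.Agent.TH498.HF
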