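import Pool.Agent.TH498.HF.L1
import Pool.Agent.TH498.HF.K1
import Pool.Agent.TH498.HF.K2
import Pool.Agent.TH498.HF.K3
import Pool.Agent.TH498.HF.K4

/-!
# Members of the families by conductor
-/

set_option autoImplicit false

namespace Pool.Agent.TH498.HF

open Finset Polynomial Pool.Agent.TH498.KB

theorem fin_of_bound {α : Type} (S : Set α) (b : ℝ) (h : ∀ s : Finset α, (↑s : Set α) ⊆ S →
    (s.card : ℝ) ≤ b) : S.Finite ∧ (S.ncard : ℝ) ≤ b := by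
  have hfin : S.Finite := by
    by_contra hinf
    obtain ⟨t, ht, hc⟩ := Set.Infinite.exists_subset_card_eq hinf (⌊b⌋₊ + 1)
    have h1 := h t ht
    rw [hc] at h1
    have h2 := Nat.lt_floor_add_one b
    push_cast at h1
    linarith
  refine ⟨hfin, ?_⟩
  rw [Set.ncard_eq_toFinset_card _ hfin]
  exact h _ (by simp)

theorem up (A B : ℤ[X]) (k m : ℕ) (f : Fin m → ℤ[X]) (n : Fin m → ℕ)
    (hF : FamB A B k m f n) {β : Type} [Fintype β] [DecidableEq β] [Nonempty β]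
    (J : β → Finset (Fin m)) (hJ : ∀ b, 3 ≤ ∑ i ∈ J b, n i) (c : ℕ)
    (hc : ∀ i, (univ.filter (fun b => i ∈ J b)).card ≤ c) :
    ∃ (C : ℝ) (d : ℕ), 0 < C ∧ ∀ N : ℕ, 1 ≤ N → ∀ S : Set (ℤ × ℤ),
      (∀ p ∈ S, MinS p.1 p.2 ∧ Mem A B p.1 p.2 ∧ Cond p.1 p.2 ≤ N) →
      S.Finite ∧ (S.ncard : ℝ) ≤ C * (N : ℝ) ^ ((c : ℝ) / Fintype.card β) *
        (1 + Real.log N) ^ d := by
  obtain ⟨C, d, hC, h⟩ := core_free A B k m f n hF J hJ c hc 1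
  refine ⟨C, d, hC, fun N hN S hS => fin_of_bound _ _ fun s hs => ?_⟩
  refine h N (by exact_mod_cast hN) s fun p hp => ?_
  obtain ⟨h1, h2, h3⟩ := hS p (hs hp)
  refine ⟨h1.1, h2, fun r h4 h6 => prim_of_minS _ _ h1 r h4 h6, ?_⟩
  exact_mod_cast (rad5_le_cond p.1 p.2).trans h3

theorem short_mem (a1 a2 a3 : ℤ[X]) (a b : ℤ)
    (h : Mem (27 * c4p a1 a2 a3) (54 * c6p a1 a2 a3) a b) :
    ∃ (t : ℚ) (C : WeierstrassCurve.VariableChange ℚ),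
      C • crv a1 a2 a3 t = ⟨0, 0, 0, -(a : ℚ), -(b : ℚ)⟩ := by
  obtain ⟨t, u, hu, ha, hb⟩ := h
  have h6 : (6 * u : ℚ) ≠ 0 := mul_ne_zero (by norm_num) hu
  set x1 := (a1.map (Int.castRingHom ℚ)).eval t with hx1
  set x2 := (a2.map (Int.castRingHom ℚ)).eval t with hx2
  set x3 := (a3.map (Int.castRingHom ℚ)).eval t with hx3
  have e4 := crv_c4 a1 a2 a3 t
  have e6 := crv_c6 a1 a2 a3 t
  simp only [Polynomial.map_mul, Polynomial.map_ofNat, eval_mul, eval_ofNat] at ha hb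
  rw [← e4] at ha
  rw [← e6] at hb
  simp only [crv, WeierstrassCurve.c₄, WeierstrassCurve.b₂, WeierstrassCurve.b₄] at ha
  simp only [crv, WeierstrassCurve.c₆, WeierstrassCurve.b₂, WeierstrassCurve.b₄,
    WeierstrassCurve.b₆] at hb
  rw [← hx1, ← hx2, ← hx3] at ha hb
  refine ⟨t, ⟨(Units.mk0 (6 * u) h6)⁻¹, -(x1 ^ 2 + 4 * x2) / 12, -x1 / 2,
    -(x3 + -(x1 ^ 2 + 4 * x2) / 12 * x1) / 2⟩, ?_⟩
  rw [WeierstrassCurve.variableChange_def]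
  simp only [crv, inv_inv, Units.val_mk0, ← hx1, ← hx2, ← hx3]
  ext
  · simp only
    ring
  · simp only
    ring
  · simp only
    ring
  · simp only
    rw [ha]
    ring
  · simp only
    rw [hb]
    ring

/-- the curve `y² = x³ - a x - b` is isomorphic to a member of the family `V` -/
def KM (V : ℚ → WeierstrassCurve ℚ) (a b : ℤ) : Prop :=
  ∃ (t : ℚ) (C : WeierstrassCurve.VariableChange ℚ), C • V t = ⟨0, 0, 0, -(a : ℚ), -(b : ℚ)⟩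

theorem kub_up (a1 a2 a3 : ℤ[X]) (k m : ℕ) (f : Fin m → ℤ[X]) (n : Fin m → ℕ)
    (hF : FamB (27 * c4p a1 a2 a3) (54 * c6p a1 a2 a3) k m f n) (V : ℚ → WeierstrassCurve ℚ)
    (hV : ∀ t, V t = crv a1 a2 a3 t) (M c : ℕ) (hM : M ≠ 0)
    (J : Fin M → Finset (Fin m)) (hJ : ∀ b, 3 ≤ ∑ i ∈ J b, n i)
    (hc : ∀ i, (univ.filter (fun b => i ∈ J b)).card ≤ c) (e : ℝ) (he : (c : ℝ) / M = e) :
    ∃ (C : ℝ) (d : ℕ), 0 < C ∧ ∀ N : ℕ, 1 ≤ N → ∀ S : Set (ℤ × ℤ),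
      (∀ p ∈ S, MinS p.1 p.2 ∧ KM V p.1 p.2 ∧ Cond p.1 p.2 ≤ N) →
      S.Finite ∧ (S.ncard : ℝ) ≤ C * (N : ℝ) ^ e * (1 + Real.log N) ^ d := by
  have : Nonempty (Fin M) := ⟨⟨0, Nat.pos_of_ne_zero hM⟩⟩
  obtain ⟨C, d, hC, h⟩ := up _ _ k m f n hF J hJ c hc
  rw [Fintype.card_fin, he] at h
  refine ⟨C, d, hC, fun N hN S hS => h N hN S fun p hp => ?_⟩
  obtain ⟨g1, ⟨t, D, hD⟩, g2⟩ := hS p hp
  rw [hV t] at hD
  exact ⟨g1, mem_short a1 a2 a3 t D _ _ hD, g2⟩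

theorem kub_low (a1 a2 a3 : ℤ[X]) (k m : ℕ) (f : Fin m → ℤ[X]) (n : Fin m → ℕ)
    (hF : FamB (27 * c4p a1 a2 a3) (54 * c6p a1 a2 a3) k m f n)
    (hR : Rev (27 * c4p a1 a2 a3) (54 * c6p a1 a2 a3) k m f n) (V : ℚ → WeierstrassCurve ℚ)
    (hV : ∀ t, V t = crv a1 a2 a3 t) (e : ℝ) (he : 2 / ((∑ i, n i : ℕ) : ℝ) = e) :
    ∃ (c : ℝ) (N0 : ℕ), 0 < c ∧ ∀ N : ℕ, N0 ≤ N → ∀ S : Set (ℤ × ℤ), S.Finite →
      (∀ a b : ℤ, MinS a b → KM V a b → Cond a b ≤ N → (a, b) ∈ S) →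
      c * (N : ℝ) ^ e ≤ S.ncard := by
  obtain ⟨c, N0, hc, h⟩ := low _ _ k m f n hF hR
  rw [he] at h
  refine ⟨c, N0, hc, fun N hN S hS hm => h N hN S hS fun a b h1 h2 h3 => hm a b h1 ?_ h3⟩
  obtain ⟨t, D, hD⟩ := short_mem a1 a2 a3 a b h2
  exact ⟨t, D, by rw [hV t]; exact hD⟩

end Pool.Agent.TH498.HF
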