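import Pool.Agent.TH498.HF.P1
import Pool.Agent.W4.VC.Stms

/-!
# The Thue-Mahler equation: the zeros of the form in a number field, good primes
-/

set_option autoImplicit false

namespace Pool.Agent.TH498.HF

open NumberField IsDedekindDomain Finset Polynomial Pool.Agent.H691R3 Pool.Agent.TH876.Loc
open Pool.Agent.W4.VC

section Places

variable {K : Type} [Field K] [NumberField K]

theorem fv_int_eq_one {v : Pr K} {N : ℤ} (h : ¬ pv v ∣ N.natAbs) : fv v (N : K) = 1 := by
  have h1 : ((N : ℤ) : 𝓞 K) ∉ v.asIdeal := by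
    rw [Int.cast_mem_ideal_iff]
    intro h2
    apply h
    rw [← Int.natCast_dvd]
    exact h2
  have h2 := (FinitePlace.norm_eq_one_iff_notMem K (v := v) ((N : ℤ) : 𝓞 K)).2 h1
  have h3 : (algebraMap (𝓞 K) K) ((N : ℤ) : 𝓞 K) = (N : K) := by simp
  rw [h3] at h2
  exact h2

theorem fv_int_le (v : Pr K) (N : ℤ) : fv v (N : K) ≤ 1 := by
  rcases Int.natAbs_eq N with h | h
  · rw [h, Int.cast_natCast]
    exact fv_natCast_le v _
  · rw [h, Int.cast_neg, Int.cast_natCast, (fv v).map_neg]
    exact fv_natCast_le v _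

theorem max_coprime (v : Pr K) {a b : ℤ} (h : IsCoprime a b) :
    max (fv v (a : K)) (fv v (b : K)) = 1 := by
  refine le_antisymm (max_le (fv_int_le v a) (fv_int_le v b)) ?_
  obtain ⟨x, y, hxy⟩ := h
  have h1 : ((x : K) * (a : K) + (y : K) * (b : K)) = 1 := by exact_mod_cast hxy
  calc (1 : ℝ) = fv v ((x : K) * (a : K) + (y : K) * (b : K)) := by rw [h1, map_one]
    _ ≤ max (fv v ((x : K) * (a : K))) (fv v ((y : K) * (b : K))) := fv_na v _ _
    _ ≤ max (fv v (a : K)) (fv v (b : K)) := by
      refine max_le_max ?_ ?_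
      · rw [(fv v).map_mul]
        exact mul_le_of_le_one_left ((fv v).nonneg _) (fv_int_le v x)
      · rw [(fv v).map_mul]
        exact mul_le_of_le_one_left ((fv v).nonneg _) (fv_int_le v y)

theorem finite_above (p : ℕ) : {v : Pr K | pv v = p}.Finite := by
  by_contra hinf
  obtain ⟨E, hE1, hE2⟩ := Set.Infinite.exists_subset_card_eq hinf (Module.finrank ℚ K + 1)
  have := card_above p E (fun v hv => hE1 (Finset.mem_coe.2 hv))
  omega

variable (K) in
/-- the primes above the prime numbers in `P` -/
noncomputable def Ab (P : Finset ℕ) : Finset (Pr K) :=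
  (Set.Finite.biUnion (t := fun p => {v : Pr K | pv v = p}) P.finite_toSet
    (fun p _ => finite_above p)).toFinset

theorem mem_Ab (P : Finset ℕ) (v : Pr K) : v ∈ Ab K P ↔ pv v ∈ P := by
  unfold Ab
  rw [Set.Finite.mem_toFinset]
  simp only [Set.mem_iUnion, Set.mem_ofPred_eq, exists_prop, Finset.mem_coe]
  exact ⟨fun ⟨p, hp, h⟩ => h ▸ hp, fun h => ⟨_, h, rfl⟩⟩

theorem card_Ab (P : Finset ℕ) : (Ab K P).card ≤ Module.finrank ℚ K * P.card := by
  classical
  refine Finset.card_le_mul_card_image_of_maps_to (f := pv) (fun v hv => (mem_Ab P v).1 hv) _ ?_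
  intro p _
  exact card_above p _ fun v hv => (Finset.mem_filter.1 hv).2

/-- good primes -/
theorem lam_zero {n : ℕ} (α : Fin n → K × K) (c : ℤ) {a b N : ℤ}
    (hab : IsCoprime a b) (hN : ((N : ℤ) : K) = (c : K) * ∏ i, wd ((a : K), (b : K)) (α i))
    (v : Pr K) (hm : ∀ i, max (fv v (α i).1) (fv v (α i).2) = 1)
    (hvN : ¬ pv v ∣ N.natAbs) (i : Fin n) :
    lamA (fv v) ((a : K), (b : K)) (α i) = 0 := by
  have h1 := fv_int_eq_one (K := K) hvN
  rw [hN, (fv v).map_mul, map_prod] at h1
  have hle : ∀ i, fv v (wd ((a : K), (b : K)) (α i)) ≤ 1 := by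
    intro i
    unfold wd
    rw [sub_eq_add_neg]
    refine (fv_na v _ _).trans (max_le ?_ ?_)
    · rw [(fv v).map_mul]
      exact mul_le_one₀ (fv_int_le v a) ((fv v).nonneg _) ((le_max_right _ _).trans (hm i).le)
    · rw [(fv v).map_neg, (fv v).map_mul]
      exact mul_le_one₀ (fv_int_le v b) ((fv v).nonneg _) ((le_max_left _ _).trans (hm i).le)
  have hprod : ∏ j, fv v (wd ((a : K), (b : K)) (α j)) ≤ fv v (wd ((a : K), (b : K)) (α i)) := by
    rw [← Finset.mul_prod_erase Finset.univ _ (Finset.mem_univ i)]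
    refine mul_le_of_le_one_right ((fv v).nonneg _) ?_
    exact Finset.prod_le_one (fun j _ => (fv v).nonneg _) (fun j _ => hle j)
  have h2 : fv v (wd ((a : K), (b : K)) (α i)) = 1 := by
    refine le_antisymm (hle i) ?_
    calc (1 : ℝ) = fv v (c : K) * ∏ j, fv v (wd ((a : K), (b : K)) (α j)) := h1.symm
      _ ≤ ∏ j, fv v (wd ((a : K), (b : K)) (α j)) :=
        mul_le_of_le_one_left (Finset.prod_nonneg fun j _ => (fv v).nonneg _) (fv_int_le v c)
      _ ≤ _ := hprod
  unfold lamA
  simp only
  rw [max_coprime v hab, hm i]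
  change Real.log (1 * 1 / fv v (wd ((a : K), (b : K)) (α i))) = 0
  rw [h2]
  simp

end Places

theorem split_core (K : Type) [Field K] [NumberField K] (f : ℤ[X]) (n : ℕ) (hf0 : f ≠ 0)
    (hspl : (f.map (Int.castRingHom K)).Splits)
    (hnd : (f.map (Int.castRingHom K)).roots.Nodup) (hle : f.natDegree ≤ n)
    (hn : n ≤ f.natDegree + 1) :
    ∃ (α : Fin n → K × K) (c : ℤ), c ≠ 0 ∧
      (∀ i, α i ≠ 0) ∧ (∀ i j, i ≠ j → wd (α i) (α j) ≠ 0) ∧
      ∀ a b : ℤ, ((hom f n a b : ℤ) : K) = (c : K) * ∏ i, wd ((a : K), (b : K)) (α i) := by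
  classical
  have hdeg : (f.map (Int.castRingHom K)).natDegree = f.natDegree :=
    natDegree_map_eq_of_injective (Int.cast_injective) f
  have hcard : (f.map (Int.castRingHom K)).roots.card = f.natDegree := by
    rw [splits_iff_card_roots.1 hspl, hdeg]
  set S : Finset K := ⟨(f.map (Int.castRingHom K)).roots, hnd⟩ with hS
  obtain ⟨m, hm⟩ : ∃ m, m = f.natDegree := ⟨_, rfl⟩
  have hScard : S.card = m := by rw [hm]; exact hcard
  let ρ : Fin m → K := fun i => ((S.equivFinOfCardEq hScard).symm i : K)
  have hρ : Function.Injective ρ := by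
    intro i j hij
    exact (S.equivFinOfCardEq hScard).symm.injective (Subtype.ext hij)
  have hprod : ∀ g : K → K, ∏ i, g (ρ i) = ∏ r ∈ S, g r := by
    intro g
    rw [← Finset.prod_coe_sort S g]
    exact Equiv.prod_comp (S.equivFinOfCardEq hScard).symm (fun r : S => g r)
  have hlc : ((f.map (Int.castRingHom K)).leadingCoeff) = ((f.leadingCoeff : ℤ) : K) := by
    rw [leadingCoeff_map_of_injective (Int.cast_injective)]
    simp
  have heval : ∀ t : K, (f.map (Int.castRingHom K)).eval t =
      ((f.leadingCoeff : ℤ) : K) * ∏ i, (t - ρ i) := by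
    intro t
    rw [hprod (fun r => t - r)]
    nth_rewrite 1 [hspl.eq_prod_roots]
    rw [hlc, eval_mul, eval_C, eval_multiset_prod, Multiset.map_map]
    congr 1
    change _ = (Multiset.map (fun r => t - r) (f.map (Int.castRingHom K)).roots).prod
    congr 1
    refine Multiset.map_congr rfl fun r _ => ?_
    simp
  have hc0 : f.leadingCoeff ≠ 0 := leadingCoeff_ne_zero.2 hf0
  -- the form
  have hhom : ∀ a b : ℤ, b ≠ 0 → ((hom f n a b : ℤ) : K) =
      (b : K) ^ n * (f.map (Int.castRingHom K)).eval ((a : K) / (b : K)) := by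
    intro a b hb
    have hbK : (b : K) ≠ 0 := by exact_mod_cast hb
    have e1 : (f.map (Int.castRingHom K)).eval ((a : K) / (b : K)) =
        ∑ j ∈ range (n + 1), (f.coeff j : K) * ((a : K) / (b : K)) ^ j := by
      rw [eval_eq_sum_range' (n := n + 1)]
      · refine Finset.sum_congr rfl fun j _ => ?_
        rw [coeff_map]
        simp
      · rw [hdeg]
        omega
    rw [e1, Finset.mul_sum]
    unfold hom
    rw [Int.cast_sum]
    refine Finset.sum_congr rfl fun j hj => ?_
    rw [Finset.mem_range] at hj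
    have e2 : (b : K) ^ n = (b : K) ^ j * (b : K) ^ (n - j) := by
      rw [← pow_add]
      congr 1
      omega
    push_cast
    rw [e2, div_pow]
    field_simp
  have hb0 : ∀ a : ℤ, hom f n a 0 = f.coeff n * a ^ n := by
    intro a
    unfold hom
    rw [Finset.sum_range_succ, Nat.sub_self, pow_zero, mul_one]
    rw [Finset.sum_eq_zero, zero_add]
    intro j hj
    rw [Finset.mem_range] at hj
    rw [zero_pow (by omega), mul_zero]
  have e4 : ∀ a b : ℤ, b ≠ 0 → ∏ i : Fin m, ((a : K) - (b : K) * ρ i) =
      (b : K) ^ m * ∏ i : Fin m, ((a : K) / (b : K) - ρ i) := by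
    intro a b hb
    have hbK : (b : K) ≠ 0 := by exact_mod_cast hb
    have e5 : (b : K) ^ m = ∏ _i : Fin m, (b : K) := by
      rw [Finset.prod_const, Finset.card_univ, Fintype.card_fin]
    rw [e5, ← Finset.prod_mul_distrib]
    refine Finset.prod_congr rfl fun i _ => ?_
    field_simp
  obtain hnm | hnm : n = m ∨ n = m + 1 := by omega
  · subst hnm
    refine ⟨fun i => (ρ i, 1), f.leadingCoeff, hc0, ?_, ?_, ?_⟩
    · intro i h
      have := congrArg Prod.snd h
      simp at this
    · intro i j hij h
      unfold wd at h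
      simp only [mul_one, one_mul] at h
      exact hij (hρ (sub_eq_zero.1 h))
    · intro a b
      have e3 : ∏ i : Fin n, wd ((a : K), (b : K)) (ρ i, 1) =
          ∏ i : Fin n, ((a : K) - (b : K) * ρ i) := by
        refine Finset.prod_congr rfl fun i _ => ?_
        unfold wd
        simp
      rw [e3]
      rcases eq_or_ne b 0 with rfl | hb
      · rw [hb0 a]
        have e6 : f.coeff n = f.leadingCoeff := by rw [hm]; rfl
        rw [e6]
        simp
      · rw [hhom a b hb, heval, e4 a b hb]
        ring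
  · subst hnm
    refine ⟨Fin.snoc (fun i : Fin m => (ρ i, 1)) ((-1 : K), (0 : K)), f.leadingCoeff, hc0, ?_, ?_,
      ?_⟩
    · intro i
      refine Fin.lastCases ?_ (fun i => ?_) i
      · rw [Fin.snoc_last]
        intro h
        have := congrArg Prod.fst h
        simp at this
      · rw [Fin.snoc_castSucc]
        intro h
        have := congrArg Prod.snd h
        simp at this
    · intro i j
      refine Fin.lastCases ?_ (fun i => ?_) i <;> refine Fin.lastCases ?_ (fun j => ?_) j
      · intro h
        exact absurd rfl h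
      · intro _ h
        rw [Fin.snoc_last, Fin.snoc_castSucc] at h
        unfold wd at h
        simp at h
      · intro _ h
        rw [Fin.snoc_last, Fin.snoc_castSucc] at h
        unfold wd at h
        simp at h
      · intro hij h
        rw [Fin.snoc_castSucc, Fin.snoc_castSucc] at h
        unfold wd at h
        simp only [mul_one, one_mul] at h
        exact hij (congrArg _ (hρ (sub_eq_zero.1 h)))
    · intro a b
      rw [Fin.prod_univ_castSucc]
      have e3 : ∏ i : Fin m, wd ((a : K), (b : K))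
          ((Fin.snoc (fun i : Fin m => (ρ i, 1)) ((-1 : K), (0 : K)) : Fin (m + 1) → K × K)
            i.castSucc) = ∏ i : Fin m, ((a : K) - (b : K) * ρ i) := by
        refine Finset.prod_congr rfl fun i _ => ?_
        rw [Fin.snoc_castSucc]
        unfold wd
        simp
      have e7 : wd ((a : K), (b : K))
          ((Fin.snoc (fun i : Fin m => (ρ i, 1)) ((-1 : K), (0 : K)) : Fin (m + 1) → K × K)
            (Fin.last m)) = (b : K) := by
        rw [Fin.snoc_last]
        unfold wd
        simp
      rw [e3, e7]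
      rcases eq_or_ne b 0 with rfl | hb
      · rw [hb0 a]
        have e6 : f.coeff (m + 1) = 0 := coeff_eq_zero_of_natDegree_lt (by omega)
        rw [e6]
        simp
      · rw [hhom a b hb, heval, e4 a b hb]
        ring

/-- the zeros of a binary form without multiple factors -/
theorem split (f : ℤ[X]) (n : ℕ) (hf : Sqf f n) :
    ∃ (K : Type) (_ : Field K) (_ : NumberField K) (α : Fin n → K × K) (c : ℤ), c ≠ 0 ∧
      (∀ i, α i ≠ 0) ∧ (∀ i j, i ≠ j → wd (α i) (α j) ≠ 0) ∧
      ∀ a b : ℤ, ((hom f n a b : ℤ) : K) = (c : K) * ∏ i, wd ((a : K), (b : K)) (α i) := by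
  classical
  obtain ⟨hsq, hle, hn⟩ := hf
  have hf0 : f ≠ 0 := by
    rintro rfl
    rw [Polynomial.map_zero] at hsq
    exact not_squarefree_zero hsq
  have hsep : (f.map (Int.castRingHom ℚ)).Separable :=
    (PerfectField.separable_iff_squarefree).2 hsq
  have hnum : NumberField (f.map (Int.castRingHom ℚ)).SplittingField := { }
  have hspl : (f.map (Int.castRingHom (f.map (Int.castRingHom ℚ)).SplittingField)).Splits := by
    have h := SplittingField.splits (f.map (Int.castRingHom ℚ))
    rw [Polynomial.map_map] at h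
    convert h using 2 <;> rfl
  have hnd : (f.map (Int.castRingHom (f.map (Int.castRingHom ℚ)).SplittingField)).roots.Nodup := by
    have h := nodup_roots
      (hsep.map (f := algebraMap ℚ (f.map (Int.castRingHom ℚ)).SplittingField))
    rw [Polynomial.map_map] at h
    convert h using 3 <;> rfl
  exact ⟨_, inferInstance, hnum, split_core _ f n hf0 hspl hnd hle hn⟩

end Pool.Agent.TH498.HF
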