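import Pool.Agent.TH498.HF.TM1
import Pool.Agent.TH876.Light

/-!
# The Thue-Mahler equation: the number of solutions
-/

set_option autoImplicit false

namespace Pool.Agent.TH498.HF

open NumberField IsDedekindDomain Finset Polynomial Pool.Agent.H691R3 Pool.Agent.TH876.Loc
open Pool.Agent.W4.VC

theorem out_zero {K : Type} [Field K] [NumberField K] {S : Finset (Pr K)} {x : K}
    (h : sp x ⊆ S) : out S x = 0 := by
  classical
  unfold out
  have : sp x \ S = ∅ := Finset.sdiff_eq_empty_iff_subset.2 h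
  rw [this, Finset.sum_empty]

theorem zz_inj2 {K : Type} [Field K] {x y a b c : K × K} (hxc : wd x c ≠ 0) (hyc : wd y c ≠ 0)
    (hab : wd a b ≠ 0) (hbc : wd b c ≠ 0) (hca : wd c a ≠ 0)
    (h : zz x a b c = zz y a b c) : wd x y = 0 := by
  unfold zz at h
  have h1 : tr x c a b ≠ 0 := mul_ne_zero hxc hab
  have h2 : tr y c a b ≠ 0 := mul_ne_zero hyc hab
  rw [div_eq_div_iff h1 h2] at h
  have h3 : wd x y * (wd b c * wd a b * wd c a) = 0 := by
    unfold tr wd at h
    unfold wd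
    linear_combination (-1 : K) * h
  rcases mul_eq_zero.1 h3 with h4 | h4
  · exact h4
  · exact absurd h4 (mul_ne_zero (mul_ne_zero hbc hab) hca)

theorem pm_of_det {p p' : ℤ × ℤ} (hp : IsCoprime p.1 p.2) (hp' : IsCoprime p'.1 p'.2)
    (h : p.1 * p'.2 - p.2 * p'.1 = 0) : p' = p ∨ p' = (-p.1, -p.2) := by
  obtain ⟨u, w, huw⟩ := hp
  obtain ⟨u', w', huw'⟩ := hp'
  -- p' = k p with k = u p'.1 + w p'.2
  set k := u * p'.1 + w * p'.2 with hk
  have h1 : p'.1 = k * p.1 := by
    rw [hk]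
    linear_combination (-p'.1) * huw + (-w) * h
  have h2 : p'.2 = k * p.2 := by
    rw [hk]
    linear_combination (-p'.2) * huw + u * h
  have h3 : k * (u' * p.1 + w' * p.2) = 1 := by
    rw [h1, h2] at huw'
    linear_combination huw'
  have h4 : k = 1 ∨ k = -1 := by
    have : IsUnit k := IsUnit.of_mul_eq_one _ h3
    exact Int.isUnit_iff.1 this
  rcases h4 with h4 | h4
  · left
    rw [h4, one_mul] at h1 h2
    exact Prod.ext h1 h2
  · right
    rw [h4, neg_one_mul] at h1 h2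
    exact Prod.ext h1 h2

/-- **Thue-Mahler.** The number of coprime pairs for which a form without multiple factors, of
degree at least three, is composed of given primes. -/
theorem TM (f : ℤ[X]) (n : ℕ) (hf : Sqf f n) (hn : 3 ≤ n) (m : ℕ) (hm : 1 ≤ m) :
    ∃ B : ℕ, 1 ≤ B ∧ ∀ (P : Finset ℕ), ∀ s : Finset (ℤ × ℤ),
      (∀ x ∈ s, IsCoprime x.1 x.2 ∧ hom f n x.1 x.2 ≠ 0 ∧
        ∀ p : ℕ, p.Prime → p ∣ (hom f n x.1 x.2).natAbs → p ∈ P ∨ p ∣ m) →
      s.card ≤ B ^ (P.card + 1) := by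
  classical
  obtain ⟨K, _, _, α, c, hc, hα0, hα, hhom⟩ := split f n hf
  set D := Module.finrank ℚ K with hD
  obtain ⟨C, hC1, hC⟩ := light_count D 0 (by norm_num)
  let i0 : Fin n := ⟨0, by omega⟩
  let i1 : Fin n := ⟨1, by omega⟩
  let i2 : Fin n := ⟨2, by omega⟩
  have h01 : i0 ≠ i1 := by intro h; have := congrArg Fin.val h; simp [i0, i1] at this
  have h12 : i1 ≠ i2 := by intro h; have := congrArg Fin.val h; simp [i1, i2] at this
  have h20 : i2 ≠ i0 := by intro h; have := congrArg Fin.val h; simp [i2, i0] at this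
  -- bad primes
  set T0 : Finset (Pr K) := (Finset.univ.biUnion fun i : Fin n =>
    (max_support_finite (hα0 i)).toFinset) ∪
      (Sx (α i0) (α i1) ∪ (Sx (α i1) (α i2) ∪ Sx (α i2) (α i0))) with hT0
  set E0 : ℕ := T0.card + D * m.primeFactors.card + 1 with hE0
  obtain ⟨B, hB⟩ := exists_nat_ge (2 * C ^ E0 * C ^ D)
  have hC0 : 0 < C := by linarith
  have hCE : 1 ≤ C ^ E0 := one_le_pow₀ hC1
  have hCD : 1 ≤ C ^ D := one_le_pow₀ hC1
  have hB1 : (1 : ℝ) ≤ B := by nlinarith
  refine ⟨B, by exact_mod_cast hB1, ?_⟩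
  intro P s hs
  set S : Finset (Pr K) := T0 ∪ Ab K (P ∪ m.primeFactors) with hS
  have hScard : S.card + 1 ≤ E0 + D * P.card := by
    have h1 : S.card ≤ T0.card + (Ab K (P ∪ m.primeFactors)).card := Finset.card_union_le _ _
    have h2 := card_Ab (K := K) (P ∪ m.primeFactors)
    have h3 : (P ∪ m.primeFactors).card ≤ P.card + m.primeFactors.card := Finset.card_union_le _ _
    have h4 : D * (P ∪ m.primeFactors).card ≤ D * (P.card + m.primeFactors.card) :=
      Nat.mul_le_mul_left _ h3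
    rw [← hD] at h2
    rw [hE0]
    have h5 : D * (P.card + m.primeFactors.card) = D * P.card + D * m.primeFactors.card := by ring
    omega
  let ψ : ℤ × ℤ → K := fun x => zz ((x.1 : K), (x.2 : K)) (α i0) (α i1) (α i2)
  have hw : ∀ x ∈ s, ∀ i, wd ((x.1 : K), (x.2 : K)) (α i) ≠ 0 := by
    intro x hx i h0
    obtain ⟨-, h2, -⟩ := hs x hx
    have h3 := hhom x.1 x.2
    rw [Finset.prod_eq_zero (Finset.mem_univ i) h0, mul_zero] at h3
    exact h2 (by exact_mod_cast h3)
  have hx0 : ∀ x ∈ s, ((x.1 : K), (x.2 : K)) ≠ 0 := by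
    intro x hx h0
    obtain ⟨⟨u, w, huw⟩, -, -⟩ := hs x hx
    have e1 : (x.1 : K) = 0 := congrArg Prod.fst h0
    have e2 : (x.2 : K) = 0 := congrArg Prod.snd h0
    have e3 : x.1 = 0 := by exact_mod_cast e1
    have e4 : x.2 = 0 := by exact_mod_cast e2
    rw [e3, e4] at huw
    simp at huw
  have hpt : ∀ x ∈ s, Pt (ψ x) := fun x hx =>
    zz_pt (hw x hx i0) (hw x hx i1) (hw x hx i2) (hα _ _ h01) (hα _ _ h12) (hα _ _ h20)
  have hsp : ∀ x ∈ s, sp (ψ x) ⊆ S := by
    intro x hx v hv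
    by_contra hvS
    rw [hS, Finset.mem_union, not_or, mem_Ab] at hvS
    obtain ⟨hv1, hv2⟩ := hvS
    rw [hT0, Finset.mem_union, not_or] at hv1
    obtain ⟨hv3, hv4⟩ := hv1
    simp only [Finset.mem_union, not_or, mem_Sx (hα0 i0) (hα0 i1) (hα _ _ h01),
      mem_Sx (hα0 i1) (hα0 i2) (hα _ _ h12), mem_Sx (hα0 i2) (hα0 i0) (hα _ _ h20),
      not_not] at hv4
    obtain ⟨g1, g2, g3⟩ := hv4
    have hmax : ∀ i, max (fv v (α i).1) (fv v (α i).2) = 1 := by
      intro i
      by_contra hi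
      apply hv3
      rw [Finset.mem_biUnion]
      refine ⟨i, Finset.mem_univ _, ?_⟩
      rw [Set.Finite.mem_toFinset]
      exact hi
    obtain ⟨hx1, hx2, hx3⟩ := hs x hx
    have hpv : ¬ pv v ∣ (hom f n x.1 x.2).natAbs := by
      intro h
      rcases hx3 (pv v) (pv_prime v) h with h1 | h1
      · exact hv2 (Finset.mem_union_left _ h1)
      · exact hv2 (Finset.mem_union_right _ (Nat.mem_primeFactors.2
          ⟨pv_prime v, h1, by omega⟩))
    have hl := lam_zero α c hx1 (hhom x.1 x.2) v hmax hpv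
    exact (mem_sp (hpt x hx) v).1 hv
      (zz_unit (hx0 x hx) (hα0 i0) (hα0 i1) (hα0 i2) (hw x hx i0) (hw x hx i1) (hw x hx i2)
        (hα _ _ h01) (hα _ _ h12) (hα _ _ h20) v (hl i0) (hl i1) (hl i2) g1 g2 g3)
  -- the fibres
  have hfib : s.card ≤ 2 * (s.image ψ).card := by
    refine Finset.card_le_mul_card_image s _ ?_
    intro z hz
    obtain ⟨x, hx, hxz⟩ := Finset.mem_image.1 hz
    have hsub : s.filter (fun y => ψ y = z) ⊆ {x, (-x.1, -x.2)} := by
      intro y hy
      obtain ⟨hy1, hy2⟩ := Finset.mem_filter.1 hy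
      have h1 := zz_inj2 (hw x hx i2) (hw y hy1 i2) (hα _ _ h01) (hα _ _ h12) (hα _ _ h20)
        (hxz.trans hy2.symm)
      have h2 : x.1 * y.2 - x.2 * y.1 = 0 := by
        unfold wd at h1
        simp only at h1
        exact_mod_cast h1
      rw [Finset.mem_insert, Finset.mem_singleton]
      exact pm_of_det (hs x hx).1 (hs y hy1).1 h2
    exact (Finset.card_le_card hsub).trans Finset.card_le_two
  have hcount := hC K rfl S (s.image ψ) (by
    intro z hz
    obtain ⟨x, hx, rfl⟩ := Finset.mem_image.1 hz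
    refine ⟨hpt x hx, ?_⟩
    rw [out_zero (hsp x hx), zero_mul])
  have hfin : (s.card : ℝ) ≤ (B : ℝ) ^ (P.card + 1) := by
    calc (s.card : ℝ) ≤ 2 * ((s.image ψ).card : ℝ) := by exact_mod_cast hfib
      _ ≤ 2 * C ^ (S.card + 1) := by linarith
      _ ≤ 2 * C ^ (E0 + D * P.card) := by
        have := pow_le_pow_right₀ hC1 hScard
        linarith
      _ = (2 * C ^ E0) * (C ^ D) ^ P.card := by
        rw [pow_add, pow_mul]; ring
      _ ≤ (B : ℝ) * (B : ℝ) ^ P.card := by
        refine mul_le_mul ?_ (pow_le_pow_left₀ (by linarith) ?_ _) (by positivity) (by linarith)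
        · nlinarith
        · nlinarith
      _ = _ := by rw [pow_succ]; ring
  exact_mod_cast hfin

end Pool.Agent.TH498.HF
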